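import Mathlib

/-!
# A basis of a quotient module up to denominators
-/

set_option autoImplicit false

namespace Q207.EP

theorem basis {A ι : Type} [CommRing A] [IsDomain A] [Fintype ι] [DecidableEq ι] (N : Submodule A (ι → A)) :
    ∃ (B : Finset ι) (G : A) (M : ι → ι → A), G ≠ 0 ∧
      (∀ σ, (Pi.single σ G - ∑ b ∈ B, Pi.single b (M σ b) : ι → A) ∈ N) ∧
      ∀ R ∈ N, ∀ b ∈ B, ∑ σ, R σ * M σ b = 0 := by
  classical
  -- a maximal set `B` such that no nonzero element of `N` is supported on `B`
  let good : Finset ι → Prop := fun B => ∀ R ∈ N, (∀ σ, σ ∉ B → R σ = 0) → R = 0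
  have hne : (Finset.univ.filter good).Nonempty := by
    refine ⟨∅, Finset.mem_filter.2 ⟨Finset.mem_univ _, fun R _ h => ?_⟩⟩
    funext σ
    exact h σ (Finset.notMem_empty _)
  obtain ⟨B, hB, hmax⟩ := Finset.exists_max_image _ Finset.card hne
  rw [Finset.mem_filter] at hB
  have hg : good B := hB.2
  have hR : ∀ σ, σ ∉ B → ∃ R ∈ N, (∀ τ, τ ∉ insert σ B → R τ = 0) ∧ R σ ≠ 0 := by
    intro σ hσ
    by_contra hcon
    push Not at hcon
    have h1 : good (insert σ B) := by
      intro R hRN hsupp
      refine hg R hRN fun τ hτ => ?_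
      by_cases h2 : τ = σ
      · subst h2
        exact hcon R hRN hsupp
      · exact hsupp τ fun h3 => (Finset.mem_insert.1 h3).elim h2 hτ
    have h2 := hmax (insert σ B) (Finset.mem_filter.2 ⟨Finset.mem_univ _, h1⟩)
    rw [Finset.card_insert_of_notMem hσ] at h2
    omega
  choose! R hRN hsupp hne' using hR
  let P : ι → A := fun σ => if σ ∈ B then 1 else R σ σ
  have hP : ∀ σ, P σ ≠ 0 := by
    intro σ
    by_cases h : σ ∈ B
    · simp only [P, if_pos h]
      exact one_ne_zero
    · simp only [P, if_neg h]
      exact hne' σ h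
  let G : A := ∏ σ, P σ
  have hG : G ≠ 0 := Finset.prod_ne_zero_iff.2 fun σ _ => hP σ
  let Q : ι → A := fun σ => ∏ τ ∈ Finset.univ.erase σ, P τ
  have hQ : ∀ σ, Q σ * P σ = G := fun σ => Finset.prod_erase_mul _ _ (Finset.mem_univ σ)
  let M : ι → ι → A := fun σ b => if σ ∈ B then (if b = σ then G else 0) else -(Q σ * R σ b)
  have hrel : ∀ σ, (Pi.single σ G - ∑ b ∈ B, Pi.single b (M σ b) : ι → A) ∈ N := by
    intro σ
    by_cases h : σ ∈ B
    · have h1 : (∑ b ∈ B, Pi.single b (M σ b) : ι → A) = Pi.single σ G := by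
        rw [Finset.sum_eq_single σ]
        · simp only [M, if_pos h, if_true]
        · intro b _ hb
          simp only [M, if_pos h, if_neg hb]
          exact Pi.single_zero b
        · intro h2
          exact absurd h h2
      rw [h1, sub_self]
      exact N.zero_mem
    · have h1 : (Pi.single σ G - ∑ b ∈ B, Pi.single b (M σ b) : ι → A) = Q σ • R σ := by
        funext τ
        rw [Pi.sub_apply, Finset.sum_apply, Pi.smul_apply, smul_eq_mul]
        by_cases h2 : τ = σ
        · subst h2
          rw [Pi.single_eq_same, Finset.sum_eq_zero, sub_zero, ← hQ τ]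
          · simp only [P, if_neg h]
          · intro b hb
            rw [Pi.single_eq_of_ne]
            intro h3
            exact h (h3 ▸ hb)
        · rw [Pi.single_eq_of_ne h2, zero_sub]
          by_cases h3 : τ ∈ B
          · rw [Finset.sum_eq_single τ]
            · rw [Pi.single_eq_same]
              simp only [M, if_neg h, neg_neg]
            · intro b _ hb
              exact Pi.single_eq_of_ne (Ne.symm hb) _
            · intro h4
              exact absurd h3 h4
          · rw [Finset.sum_eq_zero, neg_zero, hsupp σ h τ, mul_zero]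
            · intro h4
              exact (Finset.mem_insert.1 h4).elim h2 h3
            · intro b hb
              rw [Pi.single_eq_of_ne]
              intro h4
              exact h3 (h4 ▸ hb)
      rw [h1]
      exact N.smul_mem _ (hRN σ h)
  refine ⟨B, G, M, hG, hrel, fun S hS b hb => ?_⟩
  -- `G S - ∑ S_σ (...)` is in `N` and supported on `B`
  have h1 : (G • S - ∑ σ, S σ • (Pi.single σ G - ∑ b ∈ B, Pi.single b (M σ b) : ι → A)) ∈ N :=
    N.sub_mem (N.smul_mem _ hS) (N.sum_mem fun σ _ => N.smul_mem _ (hrel σ))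
  have h2 : ∀ τ, (G • S - ∑ σ, S σ • (Pi.single σ G - ∑ b ∈ B, Pi.single b (M σ b) : ι → A)) τ =
      if τ ∈ B then ∑ σ, S σ * M σ τ else 0 := by
    intro τ
    rw [Pi.sub_apply, Pi.smul_apply, smul_eq_mul, Finset.sum_apply]
    have h3 : ∀ σ, (S σ • (Pi.single σ G - ∑ b ∈ B, Pi.single b (M σ b) : ι → A)) τ =
        S σ * (if τ = σ then G else 0) - S σ * (if τ ∈ B then M σ τ else 0) := by
      intro σ
      rw [Pi.smul_apply, Pi.sub_apply, smul_eq_mul, Finset.sum_apply, mul_sub]
      congr 2
      · by_cases h : τ = σ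
        · subst h
          rw [Pi.single_eq_same, if_pos rfl]
        · rw [Pi.single_eq_of_ne h, if_neg h]
      · by_cases h : τ ∈ B
        · rw [if_pos h, Finset.sum_eq_single τ]
          · exact Pi.single_eq_same _ _
          · intro b _ hb
            exact Pi.single_eq_of_ne (Ne.symm hb) _
          · intro h4
            exact absurd h h4
        · rw [if_neg h, Finset.sum_eq_zero]
          intro b hb
          rw [Pi.single_eq_of_ne]
          intro h4
          exact h (h4 ▸ hb)
    rw [Finset.sum_congr rfl fun σ _ => h3 σ, Finset.sum_sub_distrib]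
    have h4 : ∑ σ, S σ * (if τ = σ then G else 0) = G * S τ := by
      rw [Finset.sum_eq_single τ]
      · rw [if_pos rfl, mul_comm]
      · intro σ _ hσ
        rw [if_neg (Ne.symm hσ), mul_zero]
      · intro h
        exact absurd (Finset.mem_univ _) h
    rw [h4, sub_sub_cancel]
    by_cases h : τ ∈ B
    · simp only [if_pos h]
    · simp only [if_neg h, mul_zero, Finset.sum_const_zero]
  have h3 := hg _ h1 fun τ hτ => by rw [h2 τ, if_neg hτ]
  have h4 := congrFun h3 b
  rw [h2 b, if_pos hb] at h4
  exact h4

end Q207.EP
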