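import Mathlib

/-!
# Primitive recursive evaluation of integral polynomials

The lemmas on integers are copied from the starting library (`Pool.Agent.Helper566.FD.J7`).
-/

set_option autoImplicit false

namespace Q207.EP

open Encodable

theorem encode_int_ofNat (n : ℕ) : encode (n : ℤ) = 2 * n := rfl
theorem encode_int_negSucc (n : ℕ) : encode (Int.negSucc n) = 2 * n + 1 := rfl

theorem prim_toNat : Primrec Int.toNat := by
  have h : Primrec (fun n : ℕ => if n % 2 = 0 then n / 2 else 0) := by
    refine Primrec.ite ?_ ?_ (Primrec.const 0)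
    · exact Primrec.eq.comp (Primrec.nat_mod.comp Primrec.id (Primrec.const 2)) (Primrec.const 0)
    · exact Primrec.nat_div.comp Primrec.id (Primrec.const 2)
  refine (h.comp Primrec.encode).of_eq fun z => ?_
  cases z with
  | ofNat n =>
    show (if (encode (n : ℤ)) % 2 = 0 then (encode (n : ℤ)) / 2 else 0) = n
    rw [encode_int_ofNat, if_pos (by omega)]; omega
  | negSucc n =>
    show (if (encode (Int.negSucc n)) % 2 = 0 then (encode (Int.negSucc n)) / 2 else 0) = 0
    rw [encode_int_negSucc, if_neg (by omega)]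

theorem prim_toNat_neg : Primrec (fun z : ℤ => (-z).toNat) := by
  have h : Primrec (fun n : ℕ => if n % 2 = 0 then 0 else n / 2 + 1) := by
    refine Primrec.ite ?_ (Primrec.const 0) ?_
    · exact Primrec.eq.comp (Primrec.nat_mod.comp Primrec.id (Primrec.const 2)) (Primrec.const 0)
    · exact Primrec.succ.comp (Primrec.nat_div.comp Primrec.id (Primrec.const 2))
  refine (h.comp Primrec.encode).of_eq fun z => ?_
  cases z with
  | ofNat n =>
    show (if (encode (n : ℤ)) % 2 = 0 then 0 else (encode (n : ℤ)) / 2 + 1) = (-(n:ℤ)).toNat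
    rw [encode_int_ofNat, if_pos (by omega)]; omega
  | negSucc n =>
    show (if (encode (Int.negSucc n)) % 2 = 0 then 0 else (encode (Int.negSucc n)) / 2 + 1) =
      (-(Int.negSucc n)).toNat
    rw [encode_int_negSucc, if_neg (by omega)]
    rw [Int.neg_negSucc]
    simp
    omega

theorem prim_natSub : Primrec₂ (fun p q : ℕ => (p : ℤ) - (q : ℤ)) := by
  have h : Primrec₂ (fun p q : ℕ => if q ≤ p then 2 * (p - q) else 2 * (q - p) - 1) := by
    refine Primrec.ite ?_ ?_ ?_
    · exact Primrec.nat_le.comp Primrec.snd Primrec.fst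
    · exact Primrec.nat_mul.comp (Primrec.const 2) (Primrec.nat_sub.comp Primrec.fst Primrec.snd)
    · exact Primrec.nat_sub.comp (Primrec.nat_mul.comp (Primrec.const 2)
        (Primrec.nat_sub.comp Primrec.snd Primrec.fst)) (Primrec.const 1)
  refine Primrec.encode_iff.1 (Primrec.of_eq (α := ℕ × ℕ) h fun a => ?_)
  obtain ⟨p, q⟩ := a
  show (if q ≤ p then 2 * (p - q) else 2 * (q - p) - 1) = encode ((p : ℤ) - (q : ℤ))
  split_ifs with hq
  · have : (p : ℤ) - q = ((p - q : ℕ) : ℤ) := by omega
    rw [this, encode_int_ofNat]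
  · have : (p : ℤ) - q = Int.negSucc (q - p - 1) := by
      rw [Int.negSucc_eq]; omega
    rw [this, encode_int_negSucc]; omega

theorem prim_natCast : Primrec (fun p : ℕ => (p : ℤ)) := by
  refine (prim_natSub.comp Primrec.id (Primrec.const 0)).of_eq fun n => ?_
  simp

theorem prim_int_of_parts (f : ℤ → ℤ → ℤ) (P N : ℕ → ℕ → ℕ → ℕ → ℕ)
    (hP : Primrec (fun a : (ℕ × ℕ) × (ℕ × ℕ) => P a.1.1 a.1.2 a.2.1 a.2.2))
    (hN : Primrec (fun a : (ℕ × ℕ) × (ℕ × ℕ) => N a.1.1 a.1.2 a.2.1 a.2.2))
    (h : ∀ x y, f x y = (P x.toNat (-x).toNat y.toNat (-y).toNat : ℤ) -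
      (N x.toNat (-x).toNat y.toNat (-y).toNat : ℤ)) : Primrec₂ f := by
  have hx : Primrec (fun a : ℤ × ℤ => ((a.1.toNat, (-a.1).toNat), (a.2.toNat, (-a.2).toNat))) :=
    Primrec.pair (Primrec.pair (prim_toNat.comp Primrec.fst) (prim_toNat_neg.comp Primrec.fst))
      (Primrec.pair (prim_toNat.comp Primrec.snd) (prim_toNat_neg.comp Primrec.snd))
  refine (prim_natSub.comp (hP.comp hx) (hN.comp hx)).of_eq fun a => ?_
  exact (h a.1 a.2).symm

theorem prim_int_add : Primrec₂ (fun x y : ℤ => x + y) := by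
  refine prim_int_of_parts _ (fun a b c d => a + c) (fun a b c d => b + d) ?_ ?_ ?_
  · exact Primrec.nat_add.comp (Primrec.fst.comp Primrec.fst) (Primrec.fst.comp Primrec.snd)
  · exact Primrec.nat_add.comp (Primrec.snd.comp Primrec.fst) (Primrec.snd.comp Primrec.snd)
  · intro x y; push_cast; omega

theorem prim_int_neg : Primrec (fun x : ℤ => - x) := by
  have h : Primrec₂ (fun x _y : ℤ => - x) := by
    refine prim_int_of_parts _ (fun a b c d => b) (fun a b c d => a) ?_ ?_ ?_
    · exact (Primrec.snd.comp Primrec.fst)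
    · exact (Primrec.fst.comp Primrec.fst)
    · intro x y; omega
  exact h.comp Primrec.id Primrec.id

theorem prim_int_sub : Primrec₂ (fun x y : ℤ => x - y) := by
  refine prim_int_of_parts _ (fun a b c d => a + d) (fun a b c d => b + c) ?_ ?_ ?_
  · exact Primrec.nat_add.comp (Primrec.fst.comp Primrec.fst) (Primrec.snd.comp Primrec.snd)
  · exact Primrec.nat_add.comp (Primrec.snd.comp Primrec.fst) (Primrec.fst.comp Primrec.snd)
  · intro x y; push_cast; omega

theorem prim_int_mul : Primrec₂ (fun x y : ℤ => x * y) := by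
  refine prim_int_of_parts _ (fun a b c d => a * c + b * d) (fun a b c d => a * d + b * c) ?_ ?_ ?_
  · exact Primrec.nat_add.comp
      (Primrec.nat_mul.comp (Primrec.fst.comp Primrec.fst) (Primrec.fst.comp Primrec.snd))
      (Primrec.nat_mul.comp (Primrec.snd.comp Primrec.fst) (Primrec.snd.comp Primrec.snd))
  · exact Primrec.nat_add.comp
      (Primrec.nat_mul.comp (Primrec.fst.comp Primrec.fst) (Primrec.snd.comp Primrec.snd))
      (Primrec.nat_mul.comp (Primrec.snd.comp Primrec.fst) (Primrec.fst.comp Primrec.snd))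
  · intro x y
    push_cast
    have hx : x = (x.toNat : ℤ) - ((-x).toNat : ℤ) := by omega
    have hy : y = (y.toNat : ℤ) - ((-y).toNat : ℤ) := by omega
    generalize (x.toNat : ℤ) = a at *
    generalize ((-x).toNat : ℤ) = b at *
    generalize (y.toNat : ℤ) = c at *
    generalize ((-y).toNat : ℤ) = d at *
    rw [hx, hy]
    ring


theorem prim_eval {k : ℕ} (W : MvPolynomial (Fin k) ℤ) :
    Primrec fun t : Fin k → ℕ => MvPolynomial.eval (fun i => (t i : ℤ)) W := by
  induction W using MvPolynomial.induction_on with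
  | C a => exact (Primrec.const a).of_eq fun t => by rw [MvPolynomial.eval_C]
  | add p q hp hq => exact (prim_int_add.comp hp hq).of_eq fun t => (map_add _ _ _).symm
  | mul_X p i hp =>
    refine (prim_int_mul.comp hp (prim_natCast.comp (Primrec.fin_app.comp Primrec.id (Primrec.const i)))).of_eq fun t => ?_
    rw [map_mul, MvPolynomial.eval_X]
    rfl

theorem prim_fam {k : ℕ} {κ : Type} [Primcodable κ] (ω : κ → MvPolynomial (Fin k) ℤ) (S : Set κ) (hfin : S.Finite)
    (hS : ∀ x, x ∉ S → ω x = 0) :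
    Primrec fun p : (Fin k → ℕ) × κ => MvPolynomial.eval (fun i => (p.1 i : ℤ)) (ω p.2) := by
  classical
  have h1 : ∀ l : List κ, Primrec fun p : (Fin k → ℕ) × κ =>
      if p.2 ∈ l then MvPolynomial.eval (fun i => (p.1 i : ℤ)) (ω p.2) else 0 := by
    intro l
    induction l with
    | nil =>
      refine (Primrec.const 0).of_eq fun p => ?_
      rw [if_neg List.not_mem_nil]
    | cons x l ih =>
      refine (Primrec.ite (Primrec.eq.comp Primrec.snd (Primrec.const x)) ((prim_eval (ω x)).comp Primrec.fst) ih).of_eq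
        fun p => ?_
      by_cases h : p.2 = x
      · rw [if_pos h, if_pos (by rw [h]; exact List.mem_cons_self), h]
      · rw [if_neg h]
        by_cases h2 : p.2 ∈ l
        · rw [if_pos h2, if_pos (List.mem_cons_of_mem _ h2)]
        · rw [if_neg h2, if_neg]
          intro h3
          exact (List.mem_cons.1 h3).elim h h2
  refine (h1 hfin.toFinset.toList).of_eq fun p => ?_
  by_cases h : p.2 ∈ hfin.toFinset.toList
  · rw [if_pos h]
  · rw [if_neg h, hS p.2 (fun h2 => h (Finset.mem_toList.2 (hfin.mem_toFinset.2 h2))), map_zero]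

theorem prim_sum {k : ℕ} {κ : Type} [Primcodable κ] (ω : κ → MvPolynomial (Fin k) ℤ) (S : Set κ) (hfin : S.Finite)
    (hS : ∀ x, x ∉ S → ω x = 0) :
    Primrec fun p : (Fin k → ℕ) × List (ℤ × κ) =>
      (p.2.map fun x => x.1 * MvPolynomial.eval (fun i => (p.1 i : ℤ)) (ω x.2)).sum := by
  have h1 : Primrec₂ fun (p : (Fin k → ℕ) × List (ℤ × κ)) (b : (ℤ × κ) × ℤ) =>
      b.1.1 * MvPolynomial.eval (fun i => (p.1 i : ℤ)) (ω b.1.2) + b.2 := by
    show Primrec fun z : ((Fin k → ℕ) × List (ℤ × κ)) × ((ℤ × κ) × ℤ) =>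
      z.2.1.1 * MvPolynomial.eval (fun i => (z.1.1 i : ℤ)) (ω z.2.1.2) + z.2.2
    have e1 : Primrec fun z : ((Fin k → ℕ) × List (ℤ × κ)) × ((ℤ × κ) × ℤ) => z.2.1.1 :=
      Primrec.fst.comp (Primrec.fst.comp Primrec.snd)
    have e2 : Primrec fun z : ((Fin k → ℕ) × List (ℤ × κ)) × ((ℤ × κ) × ℤ) => (z.1.1, z.2.1.2) :=
      Primrec.pair (Primrec.fst.comp Primrec.fst) (Primrec.snd.comp (Primrec.fst.comp Primrec.snd))
    have e3 : Primrec fun z : ((Fin k → ℕ) × List (ℤ × κ)) × ((ℤ × κ) × ℤ) => z.2.2 :=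
      Primrec.snd.comp Primrec.snd
    have e4 := (prim_fam ω S hfin hS).comp e2
    have e5 := prim_int_mul.comp e1 e4
    exact prim_int_add.comp e5 e3
  refine (Primrec.list_foldr (f := fun p : (Fin k → ℕ) × List (ℤ × κ) => p.2) (g := fun _ => (0 : ℤ)) Primrec.snd
    (Primrec.const 0) h1).of_eq fun p => ?_
  obtain ⟨t, l⟩ := p
  induction l with
  | nil => rfl
  | cons x l ih =>
    rw [List.foldr_cons, List.map_cons, List.sum_cons]
    simp only at ih ⊢
    rw [ih]

theorem prim_all {α ι : Type} [Primcodable α] [Finite ι] {P : ι → α → Prop} (h : ∀ i, PrimrecPred (P i)) :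
    PrimrecPred fun a => ∀ i, P i a := by
  classical
  have := Fintype.ofFinite ι
  have h1 : ∀ s : Finset ι, PrimrecPred fun a => ∀ i ∈ s, P i a := by
    intro s
    induction s using Finset.induction_on with
    | empty =>
      refine (PrimrecPred.of_eq (p := fun _ : α => (0 : ℕ) = 0) ?_ fun a => by simp)
      exact Primrec.eq.comp (Primrec.const 0) (Primrec.const 0)
    | insert x s hx ih =>
      refine ((h x).and ih).of_eq fun a => ?_
      constructor
      · rintro ⟨h2, h3⟩ i hi
        rcases Finset.mem_insert.1 hi with h4 | h4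
        · exact h4 ▸ h2
        · exact h3 i h4
      · intro h2
        exact ⟨h2 x (Finset.mem_insert_self _ _), fun i hi => h2 i (Finset.mem_insert_of_mem hi)⟩
  exact (h1 Finset.univ).of_eq fun a => ⟨fun h2 i => h2 i (Finset.mem_univ _), fun h2 i _ => h2 i⟩

end Q207.EP
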