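import Mathlib

/-!
# Complex linear conditions on integers are finitely many integral linear conditions
-/

set_option autoImplicit false

namespace Q207.EP

/-- the integral solutions of one complex linear equation are those of finitely many integral linear equations -/
theorem rat0 {K : Type} [Fintype K] (c : K → ℂ) : ∃ (p : ℕ) (w : Fin p → K → ℤ), ∀ z : K → ℤ,
    (∑ κ, (z κ : ℂ) * c κ = 0 ↔ ∀ i, ∑ κ, z κ * w i κ = 0) := by
  classical
  set U : Submodule ℚ ℂ := Submodule.span ℚ (Set.range c) with hU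
  have hfin : Module.Finite ℚ U := Module.Finite.span_of_finite ℚ (Set.finite_range c)
  let b := Module.finBasis ℚ U
  let u : K → U := fun κ => ⟨c κ, Submodule.subset_span ⟨κ, rfl⟩⟩
  -- a common denominator of the coordinates
  obtain ⟨D, hD⟩ := IsLocalization.exist_integer_multiples_of_finset (nonZeroDivisors ℤ)
    (Finset.univ.image fun x : Fin (Module.finrank ℚ U) × K => b.repr (u x.2) x.1)
  have hD0 : (D : ℤ) ≠ 0 := nonZeroDivisors.ne_zero D.2
  have hex : ∀ i κ, ∃ w : ℤ, (w : ℚ) = (D : ℤ) * b.repr (u κ) i := by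
    intro i κ
    obtain ⟨w, hw⟩ := hD _ (Finset.mem_image.2 ⟨(i, κ), Finset.mem_univ _, rfl⟩)
    refine ⟨w, ?_⟩
    rw [show (w : ℚ) = algebraMap ℤ ℚ w from rfl, hw]
    simp only [zsmul_eq_mul]
  choose w hw using hex
  refine ⟨Module.finrank ℚ U, w, fun z => ?_⟩
  have h1 : (∑ κ, (z κ : ℂ) * c κ = 0) ↔ ∑ κ, (z κ : ℚ) • u κ = 0 := by
    rw [← Submodule.coe_eq_zero, Submodule.coe_sum]
    have h2 : ∀ κ, (((z κ : ℚ) • u κ : U) : ℂ) = (z κ : ℂ) * c κ := by
      intro κ
      rw [Submodule.coe_smul, Algebra.smul_def]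
      simp [u]
    rw [Finset.sum_congr rfl fun κ _ => h2 κ]
  rw [h1, ← b.repr.map_eq_zero_iff]
  constructor
  · intro h i
    have h2 : (b.repr (∑ κ, (z κ : ℚ) • u κ)) i = 0 := by
      rw [h]
      rfl
    rw [map_sum, Finsupp.finsetSum_apply] at h2
    have h3 : ((∑ κ, z κ * w i κ : ℤ) : ℚ) = (D : ℤ) * ∑ κ, (b.repr ((z κ : ℚ) • u κ)) i := by
      rw [Finset.mul_sum]
      push_cast
      refine Finset.sum_congr rfl fun κ _ => ?_
      rw [hw, map_smul, Finsupp.smul_apply, smul_eq_mul]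
      ring
    rw [h2, mul_zero] at h3
    exact_mod_cast h3
  · intro h
    ext i
    rw [map_sum, Finsupp.finsetSum_apply]
    have h3 : ((∑ κ, z κ * w i κ : ℤ) : ℚ) = (D : ℤ) * ∑ κ, (b.repr ((z κ : ℚ) • u κ)) i := by
      rw [Finset.mul_sum]
      push_cast
      refine Finset.sum_congr rfl fun κ _ => ?_
      rw [hw, map_smul, Finsupp.smul_apply, smul_eq_mul]
      ring
    rw [h i, Int.cast_zero] at h3
    have h4 : ((D : ℤ) : ℚ) ≠ 0 := by exact_mod_cast hD0
    exact (mul_eq_zero.1 h3.symm).resolve_left h4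

/-- one polynomial condition at the point `(1/t_1, …, 1/t_k)` with complex coefficients, for all integral vectors `a`, is
equivalent to finitely many conditions with integral coefficients, polynomial in `t` -/
theorem rat {k : ℕ} {A : Type} [Fintype A] (P : A → MvPolynomial (Fin k) ℂ) :
    ∃ (p : ℕ) (W : Fin p → A → MvPolynomial (Fin k) ℤ), ∀ t : Fin k → ℕ, (∀ i, 0 < t i) → ∀ a : A → ℤ,
      (∑ α, (a α : ℂ) * MvPolynomial.eval (fun i => 1 / (t i : ℂ)) (P α) = 0 ↔
        ∀ i, ∑ α, a α * MvPolynomial.eval (fun i => (t i : ℤ)) (W i α) = 0) := by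
  classical
  let S : Finset (Fin k →₀ ℕ) := Finset.univ.biUnion fun α => (P α).support
  let D : ℕ := S.sup fun s => Finset.univ.sup fun i => s i
  have hD : ∀ s ∈ S, ∀ i, s i ≤ D := fun s hs i =>
    (Finset.le_sup (f := fun i => s i) (Finset.mem_univ i)).trans (Finset.le_sup (f := fun s : Fin k →₀ ℕ => Finset.univ.sup fun i => s i) hs)
  obtain ⟨p, w, hw⟩ := rat0 fun x : A × S => (P x.1).coeff x.2.1
  refine ⟨p, fun i α => ∑ s : S, MvPolynomial.C (w i (α, s)) * ∏ j, MvPolynomial.X j ^ (D - s.1 j), fun t ht a => ?_⟩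
  have ht' : ∀ i, (t i : ℂ) ≠ 0 := fun i => by exact_mod_cast (ht i).ne'
  have hprod : ∏ j, (t j : ℂ) ^ D ≠ 0 := Finset.prod_ne_zero_iff.2 fun j _ => pow_ne_zero _ (ht' j)
  have hmain : ∀ α, (∏ j, (t j : ℂ) ^ D) * MvPolynomial.eval (fun i => 1 / (t i : ℂ)) (P α) =
      ∑ s : S, (P α).coeff s.1 * ∏ j, (t j : ℂ) ^ (D - s.1 j) := by
    intro α
    have h1 : MvPolynomial.eval (fun i => 1 / (t i : ℂ)) (P α) = ∑ s : S, (P α).coeff s.1 * ∏ j, (1 / (t j : ℂ)) ^ (s.1 j) := by
      rw [MvPolynomial.eval_eq']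
      refine Eq.trans ?_ (Finset.sum_coe_sort S (fun s => (P α).coeff s * ∏ j, (1 / (t j : ℂ)) ^ (s j))).symm
      refine Finset.sum_subset (Finset.subset_biUnion_of_mem (fun α => (P α).support) (Finset.mem_univ α)) fun s _ hs => ?_
      rw [MvPolynomial.notMem_support_iff.1 hs, zero_mul]
    rw [h1, Finset.mul_sum]
    refine Finset.sum_congr rfl fun s _ => ?_
    rw [mul_left_comm, ← Finset.prod_mul_distrib]
    congr 1
    refine Finset.prod_congr rfl fun j _ => ?_
    have h2 : (t j : ℂ) ^ D = (t j : ℂ) ^ (D - s.1 j) * (t j : ℂ) ^ (s.1 j) := by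
      rw [← pow_add, Nat.sub_add_cancel (hD s.1 s.2 j)]
    rw [h2, one_div, inv_pow, mul_assoc, mul_inv_cancel₀ (pow_ne_zero _ (ht' j)), mul_one]
  have h1 : (∑ α, (a α : ℂ) * MvPolynomial.eval (fun i => 1 / (t i : ℂ)) (P α) = 0) ↔
      ∑ x : A × S, ((a x.1 * ∏ j, (t j : ℤ) ^ (D - x.2.1 j) : ℤ) : ℂ) * (P x.1).coeff x.2.1 = 0 := by
    have h2 : (∏ j, (t j : ℂ) ^ D) * ∑ α, (a α : ℂ) * MvPolynomial.eval (fun i => 1 / (t i : ℂ)) (P α) =
        ∑ x : A × S, ((a x.1 * ∏ j, (t j : ℤ) ^ (D - x.2.1 j) : ℤ) : ℂ) * (P x.1).coeff x.2.1 := by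
      rw [Fintype.sum_prod_type, Finset.mul_sum]
      refine Finset.sum_congr rfl fun α _ => ?_
      rw [mul_left_comm, hmain α, Finset.mul_sum]
      refine Finset.sum_congr rfl fun s _ => ?_
      push_cast
      ring
    rw [← h2]
    constructor
    · intro h
      rw [h, mul_zero]
    · intro h
      exact (mul_eq_zero.1 h).resolve_left hprod
  rw [h1, hw]
  refine forall_congr' fun i => ?_
  rw [Fintype.sum_prod_type]
  have h3 : ∀ α, a α * MvPolynomial.eval (fun i => (t i : ℤ)) (∑ s : S, MvPolynomial.C (w i (α, s)) *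
      ∏ j, MvPolynomial.X j ^ (D - s.1 j)) = ∑ s : S, (a α * ∏ j, (t j : ℤ) ^ (D - s.1 j)) * w i (α, s) := by
    intro α
    rw [map_sum, Finset.mul_sum]
    refine Finset.sum_congr rfl fun s _ => ?_
    rw [map_mul, MvPolynomial.eval_C, map_prod]
    simp only [map_pow, MvPolynomial.eval_X]
    ring
  rw [Finset.sum_congr rfl fun α _ => h3 α]

end Q207.EP
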