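import Pool.Agent.Y120.R.XY
import Pool.Agent.Q207.EP.Alg
import Pool.Agent.Q207.EP.Rat
import Pool.Agent.Q207.EP.Prim

/-!
# A finite list of polynomial identities decides the equality of periods at almost all tuples of integers
-/

set_option autoImplicit false

open PowerSeries Pool.Agent.Y120.R

namespace Q207.EP

section
variable {k : ℕ} {I : Type} [Fintype I] [DecidableEq I] {d : ℕ}

/-- the monomials in the values -/
noncomputable def mon (f : I → ℂ) (j : Jx I d) : ℂ := ∏ v, f v ^ (j.1 v : ℕ)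

/-- the functional relations -/
noncomputable def Rel (d : ℕ) (f : (Fin k → ℝ) → I → ℂ) : Submodule (MvPolynomial (Fin k) ℂ) (Jx I d → MvPolynomial (Fin k) ℂ) where
  carrier := {R | ∃ τ : ℝ, ∀ s : Fin k → ℝ, (∀ i, τ < s i) →
    ∑ j, MvPolynomial.eval (fun i => 1 / (s i : ℂ)) (R j) * mon (f s) j = 0}
  zero_mem' := ⟨0, fun s _ => Finset.sum_eq_zero fun j _ => by rw [Pi.zero_apply, map_zero, zero_mul]⟩
  add_mem' := by
    rintro R S ⟨τ, hR⟩ ⟨τ', hS⟩
    refine ⟨max τ τ', fun s hs => ?_⟩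
    have h1 := hR s fun i => lt_of_le_of_lt (le_max_left _ _) (hs i)
    have h2 := hS s fun i => lt_of_le_of_lt (le_max_right _ _) (hs i)
    have h3 : ∀ j, MvPolynomial.eval (fun i => 1 / (s i : ℂ)) ((R + S) j) * mon (f s) j =
        MvPolynomial.eval (fun i => 1 / (s i : ℂ)) (R j) * mon (f s) j +
        MvPolynomial.eval (fun i => 1 / (s i : ℂ)) (S j) * mon (f s) j := by
      intro j
      rw [Pi.add_apply, map_add, add_mul]
    rw [Finset.sum_congr rfl fun j _ => h3 j, Finset.sum_add_distrib, h1, h2, add_zero]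
  smul_mem' := by
    rintro c R ⟨τ, hR⟩
    refine ⟨τ, fun s hs => ?_⟩
    have h3 : ∀ j, MvPolynomial.eval (fun i => 1 / (s i : ℂ)) ((c • R) j) * mon (f s) j =
        MvPolynomial.eval (fun i => 1 / (s i : ℂ)) c *
          (MvPolynomial.eval (fun i => 1 / (s i : ℂ)) (R j) * mon (f s) j) := by
      intro j
      rw [Pi.smul_apply, smul_eq_mul, map_mul, mul_assoc]
    rw [Finset.sum_congr rfl fun j _ => h3 j, ← Finset.mul_sum, hR s hs, mul_zero]

theorem core (d : ℕ) (f : (Fin k → ℝ) → I → ℂ) :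
    ∃ (τ : ℝ) (G : MvPolynomial (Fin k) ℂ) (B : Finset (Jx I d)) (P : B → Jx I d → MvPolynomial (Fin k) ℂ), G ≠ 0 ∧
      (∀ s : Fin k → ℝ, (∀ i, τ < s i) → MvPolynomial.eval (fun i => 1 / (s i : ℂ)) G ≠ 0 → ∀ F : Jx I d → ℂ,
        (∀ b, ∑ j, F j * MvPolynomial.eval (fun i => 1 / (s i : ℂ)) (P b j) = 0) → ∑ j, F j * mon (f s) j = 0) ∧
      ∀ R ∈ Rel d f, ∀ b, ∑ j, R j * P b j = 0 := by
  classical
  obtain ⟨B, G, M, hG, hM, hR⟩ := basis (Rel d f)
  choose τ hτ using hM
  obtain ⟨T, hT⟩ : ∃ T : ℝ, ∀ j, τ j ≤ T := by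
    rcases isEmpty_or_nonempty (Jx I d) with h | h
    · exact ⟨0, fun j => (h.false j).elim⟩
    · exact ⟨Finset.univ.sup' Finset.univ_nonempty τ, fun j => Finset.le_sup' τ (Finset.mem_univ j)⟩
  refine ⟨T, G, B, fun b j => M j b, hG, fun s hs hGs F hF => ?_, fun R hRN b => hR R hRN b b.2⟩
  set ev := fun p : MvPolynomial (Fin k) ℂ => MvPolynomial.eval (fun i => 1 / (s i : ℂ)) p with hev
  have h1 : ∀ j, ev G * mon (f s) j = ∑ b ∈ B, ev (M j b) * mon (f s) b := by
    intro j
    have h2 := hτ j s fun i => lt_of_le_of_lt (hT j) (hs i)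
    have h3 : ∀ j', MvPolynomial.eval (fun i => 1 / (s i : ℂ))
        ((Pi.single j G - ∑ b ∈ B, Pi.single b (M j b) : Jx I d → MvPolynomial (Fin k) ℂ) j') * mon (f s) j' =
        (if j' = j then ev G * mon (f s) j else 0) - (if j' ∈ B then ev (M j j') * mon (f s) j' else 0) := by
      intro j'
      rw [Pi.sub_apply, map_sub, sub_mul, Finset.sum_apply]
      congr 1
      · by_cases h : j' = j
        · subst h
          rw [if_pos rfl, Pi.single_eq_same]
        · rw [if_neg h, Pi.single_eq_of_ne h, map_zero, zero_mul]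
      · by_cases h : j' ∈ B
        · rw [if_pos h, Finset.sum_eq_single j', Pi.single_eq_same]
          · intro b _ hb
            exact Pi.single_eq_of_ne (Ne.symm hb) _
          · intro h4
            exact absurd h h4
        · rw [if_neg h, Finset.sum_eq_zero, map_zero, zero_mul]
          intro b hb
          rw [Pi.single_eq_of_ne]
          intro h4
          exact h (h4 ▸ hb)
    rw [Finset.sum_congr rfl fun j' _ => h3 j', Finset.sum_sub_distrib, Finset.sum_ite_eq' Finset.univ j,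
      if_pos (Finset.mem_univ j), ← Finset.sum_filter, sub_eq_zero] at h2
    rw [h2]
    refine Finset.sum_congr ?_ fun _ _ => rfl
    ext b
    simp
  have h2 : ev G * ∑ j, F j * mon (f s) j = 0 := by
    rw [Finset.mul_sum]
    have h3 : ∀ j, ev G * (F j * mon (f s) j) = ∑ b ∈ B, (F j * ev (M j b)) * mon (f s) b := by
      intro j
      rw [mul_left_comm, h1 j, Finset.mul_sum]
      exact Finset.sum_congr rfl fun b _ => by ring
    rw [Finset.sum_congr rfl fun j _ => h3 j, Finset.sum_comm]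
    refine Finset.sum_eq_zero fun b hb => ?_
    rw [← Finset.sum_mul]
    have h4 := hF ⟨b, hb⟩
    simp only [hev] at h4 ⊢
    rw [h4, zero_mul]
  exact (mul_eq_zero.1 h2).resolve_left hGs

end

end Q207.EP
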