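import Pool.Agent.Y120.R.XY

/-!
# Relations with coefficients in a vector space are combinations of rational relations

At almost all tuples of integers `t` a polynomial relation between the logarithms and the values of the G-functions with
coefficients in a fixed finite dimensional rational space stays a relation if a rational linear map is applied to the coefficients.
-/

set_option autoImplicit false

open PowerSeries Pool.Agent.Y113 Pool.Agent.Y120.GF Pool.Agent.Y120.GH Pool.Agent.Y120.R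

namespace Q207.EP

section
variable {σ : Type} (ψ : ℂ →ₗ[ℚ] ℂ)

/-- a rational linear map applied to the coefficients -/
noncomputable def app (P : MvPolynomial σ ℂ) : MvPolynomial σ ℂ := ∑ s ∈ P.support, MvPolynomial.monomial s (ψ (P.coeff s))

lemma coeff_app (P : MvPolynomial σ ℂ) (s : σ →₀ ℕ) : (app ψ P).coeff s = ψ (P.coeff s) := by
  classical
  unfold app
  rw [MvPolynomial.coeff_sum]
  by_cases h : s ∈ P.support
  · rw [Finset.sum_eq_single s, MvPolynomial.coeff_monomial, if_pos rfl]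
    · intro s' _ hne
      rw [MvPolynomial.coeff_monomial, if_neg hne]
    · intro h2
      exact absurd h h2
  · rw [MvPolynomial.notMem_support_iff.1 h, map_zero]
    refine Finset.sum_eq_zero fun s' hs' => ?_
    rw [MvPolynomial.coeff_monomial, if_neg]
    rintro rfl
    exact h hs'

lemma support_app (P : MvPolynomial σ ℂ) : (app ψ P).support ⊆ P.support := by
  intro s hs
  rw [MvPolynomial.mem_support_iff] at hs ⊢
  intro h
  apply hs
  rw [coeff_app, h, map_zero]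

lemma deg_app {δ : ℕ} {P : MvPolynomial σ ℂ} (h : P.totalDegree ≤ δ) : (app ψ P).totalDegree ≤ δ := by
  refine le_trans ?_ h
  unfold MvPolynomial.totalDegree
  exact Finset.sup_mono (support_app ψ P)

end

section
variable {k : ℕ} {r : Fin k → ℕ} {h : ∀ i, Fin (r i) → ℚ⟦X⟧}

theorem desc (δ D : ℕ) (hF : ∀ i, Fam δ (h i)) :
    ∃ c C : ℝ, 0 < c ∧ 0 ≤ C ∧ ∀ (V : Submodule ℚ ℂ) [Module.Finite ℚ V], Module.finrank ℚ V ≤ D →
      ∀ (x : Fin k → ℕ) (N : ℕ), 1 ≤ N → ∀ S : Finset (Fin k → ℕ),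
      (∀ t ∈ S, (∀ i, x i < t i ∧ t i ≤ x i + N) ∧ ∃ P : MvPolynomial (Σ i, Option (Fin (r i))) ℂ, P.totalDegree ≤ δ ∧
        (∀ s, P.coeff s ∈ V) ∧ MvPolynomial.aeval (vp h fun i => (t i : ℝ)) P = 0 ∧
        ∃ ψ : ℂ →ₗ[ℚ] ℂ, MvPolynomial.aeval (vp h fun i => (t i : ℝ)) (app ψ P) ≠ 0) →
      (S.card : ℝ) ≤ C * (N : ℝ) ^ (k - 1) * ∑ i, (1 + N / ((x i : ℝ) + N) ^ c) := by
  classical
  choose hsz B a M ha hM hOne using hF
  choose C₁ hC₁ using hsz
  set C₀ : Fin k → ℝ := fun i => |C₁ i| with hC₀d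
  have hC₀ : ∀ i, 0 ≤ C₀ i := fun i => abs_nonneg _
  have hh : ∀ i j m, |((coeff m (h i j) : ℚ) : ℝ)| ≤ C₀ i ^ (m + 1) := fun i j m => by
    refine (hC₁ i j m).trans ?_
    rw [hC₀d, ← abs_pow]
    exact le_abs_self _
  obtain ⟨c, C, hc, hC, hgood⟩ := good (δ := δ) D hM hOne hC₀ hh
  choose c₁ hc₁ using fun i => no_roots (ha i)
  obtain ⟨w₀, hw₀⟩ : ∃ w : ℕ, ∀ i, C₀ i ≤ w ∧ c₁ i ≤ w := by
    choose m hm using fun i => exists_nat_ge (C₀ i)
    refine ⟨∑ i, (m i + c₁ i), fun i => ⟨?_, ?_⟩⟩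
    · have h1 : m i + c₁ i ≤ ∑ i, (m i + c₁ i) :=
        Finset.single_le_sum (f := fun i => m i + c₁ i) (fun _ _ => Nat.zero_le _) (Finset.mem_univ i)
      have h2 : ((m i : ℕ) : ℝ) ≤ ((∑ i, (m i + c₁ i) : ℕ) : ℝ) := by exact_mod_cast (by omega)
      exact (hm i).trans h2
    · have h1 : m i + c₁ i ≤ ∑ i, (m i + c₁ i) :=
        Finset.single_le_sum (f := fun i => m i + c₁ i) (fun _ _ => Nat.zero_le _) (Finset.mem_univ i)
      omega
  refine ⟨c, C + (w₀ + 1), hc, by positivity, ?_⟩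
  intro V _ hV x N hN S hS
  set S₁ := S.filter fun t => ∃ i, t i ≤ w₀ with hS₁
  set S₃ := S.filter fun t => ¬ ∃ i, t i ≤ w₀ with hS₃
  have hcard : S.card = S₁.card + S₃.card := (Finset.card_filter_add_card_filter_not (s := S) fun t => ∃ i, t i ≤ w₀).symm
  have hb₁ : S₁.card ≤ k * (w₀ + 1) * N ^ (k - 1) := small w₀ N x S₁ fun t ht =>
    ⟨(hS t (Finset.mem_filter.1 ht).1).1, (Finset.mem_filter.1 ht).2⟩
  have hb₃ : (S₃.card : ℝ) ≤ C * (N : ℝ) ^ (k - 1) * ∑ i, (1 + N / ((x i : ℝ) + N) ^ c) := by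
    refine hgood V hV x N hN S₃ fun t ht => ?_
    obtain ⟨htS, hbig⟩ := Finset.mem_filter.1 ht
    obtain ⟨hbox, P, hPd, hPV, hP0, ψ, hψ⟩ := hS t htS
    push Not at hbig
    have hlt : ∀ i, C₀ i < (t i : ℝ) := fun i => lt_of_le_of_lt (hw₀ i).1 (by exact_mod_cast hbig i)
    refine ⟨hbox, hlt, P, hPd, hPV, hP0, ?_⟩
    by_contra hno
    push Not at hno
    apply hψ
    have h2 : ∀ (u : ℕ) (q : Polynomial ℤ), Polynomial.aeval (1 / (u : ℂ)) q = ((Polynomial.aeval (1 / (u : ℚ)) q : ℚ) : ℂ) := by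
      intro u q
      have h1 : (1 / (u : ℂ)) = algebraMap ℚ ℂ (1 / (u : ℚ)) := by
        rw [eq_ratCast]
        push_cast
        rfl
      rw [h1, Polynomial.aeval_algebraMap_apply, eq_ratCast]
    have hcc : ∀ (R : MvPolynomial (Σ i, Option (Fin (r i))) ℂ), R.support ⊆ P.support →
        ∀ p : (∀ i, B i × Fin (δ + 1)), MvPolynomial.eval (fun i => 1 / (t i : ℂ)) (cc M R p) =
          ∑ s ∈ P.support, (∏ i, Polynomial.aeval (1 / (t i : ℚ)) (mm M s i (p i)) : ℚ) • R.coeff s := by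
      intro R hR p
      rw [cc_eq M hR, map_sum]
      refine Finset.sum_congr rfl fun s _ => ?_
      have e1 := eval_mp M (RingHom.id ℂ) (fun i => 1 / (t i : ℂ)) s p
      rw [map_mul, MvPolynomial.eval_C]
      have e2 : MvPolynomial.eval (fun i => 1 / (t i : ℂ)) (mp M ℂ s p) = ∏ i, Polynomial.aeval (1 / (t i : ℂ)) (mm M s i (p i)) := e1
      rw [e2, Rat.smul_def, mul_comm]
      push_cast
      congr 1
      exact Finset.prod_congr rfl fun i _ => h2 _ _
    have hzero : ∀ p : (∀ i, B i × Fin (δ + 1)), MvPolynomial.eval (fun i => 1 / (t i : ℂ)) (cc M (app ψ P) p) = 0 := by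
      intro p
      have e1 := hno p
      rw [hcc P (Finset.Subset.refl _) p] at e1
      rw [hcc (app ψ P) (support_app ψ P) p]
      have e3 := congrArg ψ e1
      rw [map_zero, map_sum] at e3
      refine Eq.trans (Finset.sum_congr rfl fun s _ => ?_) e3
      rw [coeff_app, map_smul]
    have e4 := expand_real a M hM hC₀ hh (s := fun i => (t i : ℝ)) hlt (app ψ P) (deg_app ψ hPd)
    have e5 : ∑ p : (∀ i, B i × Fin (δ + 1)), MvPolynomial.eval (fun i => 1 / (((t i : ℝ)) : ℂ)) (cc M (app ψ P) p) *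
        xf h (fun i => (t i : ℝ)) p = 0 := by
      refine Finset.sum_eq_zero fun p _ => ?_
      have e6 := hzero p
      have e7 : (fun i => 1 / (((t i : ℝ)) : ℂ)) = fun i => 1 / (t i : ℂ) := by
        funext i
        push_cast
        rfl
      rw [e7, e6, zero_mul]
    rw [e5] at e4
    refine (mul_eq_zero.1 e4).resolve_left (Finset.prod_ne_zero_iff.2 fun i _ => ?_)
    have e8 : (c₁ i : ℝ) < (t i : ℝ) := by
      have e9 : c₁ i < t i := lt_of_le_of_lt (hw₀ i).2 (hbig i)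
      exact_mod_cast e9
    have e10 := hc₁ i (t i : ℝ) e8
    rw [aeval_cast]
    exact_mod_cast e10
  have hN1 : (1 : ℝ) ≤ N := by exact_mod_cast hN
  have hk : (k : ℝ) ≤ ∑ i, (1 + (N : ℝ) / ((x i : ℝ) + N) ^ c) := by
    have h1 : ∑ _i : Fin k, (1 : ℝ) ≤ ∑ i, (1 + (N : ℝ) / ((x i : ℝ) + N) ^ c) := by
      refine Finset.sum_le_sum fun i _ => ?_
      have : 0 ≤ (N : ℝ) / ((x i : ℝ) + N) ^ c := by positivity
      linarith
    rw [Finset.sum_const, Finset.card_univ, Fintype.card_fin, nsmul_eq_mul, mul_one] at h1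
    exact h1
  have e1 : (S.card : ℝ) = S₁.card + S₃.card := by exact_mod_cast hcard
  have e2 : (S₁.card : ℝ) ≤ k * (w₀ + 1) * (N : ℝ) ^ (k - 1) := by exact_mod_cast hb₁
  have e4 : (k : ℝ) * (w₀ + 1) * (N : ℝ) ^ (k - 1) ≤ (w₀ + 1) * (N : ℝ) ^ (k - 1) * ∑ i, (1 + (N : ℝ) / ((x i : ℝ) + N) ^ c) := by
    have : (k : ℝ) * (w₀ + 1) * (N : ℝ) ^ (k - 1) = (w₀ + 1) * (N : ℝ) ^ (k - 1) * k := by ring
    rw [this]
    exact mul_le_mul_of_nonneg_left hk (by positivity)
  rw [e1]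
  calc (S₁.card : ℝ) + S₃.card ≤ (w₀ + 1) * (N : ℝ) ^ (k - 1) * ∑ i, (1 + (N : ℝ) / ((x i : ℝ) + N) ^ c) +
        C * (N : ℝ) ^ (k - 1) * ∑ i, (1 + (N : ℝ) / ((x i : ℝ) + N) ^ c) := by linarith
    _ = _ := by ring

end

end Q207.EP
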