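import Pool.Agent.Q207.EP.Desc

/-!
# Relations with other numbers at almost all tuples of integers
-/

set_option autoImplicit false

open PowerSeries Pool.Agent.Y113 Pool.Agent.Y120.GF Pool.Agent.Y120.GH Pool.Agent.Y120.R

namespace Q207.EP

section
variable {σ : Type} (ψ : ℂ →ₗ[ℚ] ℂ)

lemma app_sum {ι : Type} (S : Finset ι) (f : ι → MvPolynomial σ ℂ) : app ψ (∑ u ∈ S, f u) = ∑ u ∈ S, app ψ (f u) := by
  ext s
  rw [coeff_app, MvPolynomial.coeff_sum, MvPolynomial.coeff_sum, map_sum]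
  exact Finset.sum_congr rfl fun u _ => (coeff_app ψ _ _).symm

lemma app_monomial (s : σ →₀ ℕ) (c : ℂ) : app ψ (MvPolynomial.monomial s c) = MvPolynomial.monomial s (ψ c) := by
  classical
  ext s'
  rw [coeff_app, MvPolynomial.coeff_monomial, MvPolynomial.coeff_monomial]
  split_ifs
  · rfl
  · exact map_zero ψ

end

section
variable {k : ℕ} {r : Fin k → ℕ} {h : ∀ i, Fin (r i) → ℚ⟦X⟧} {σ : Type} [Fintype σ] [DecidableEq σ]

/-- Let `w` be any finite tuple of complex numbers. At almost all tuples of integers all rational relations between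
`w`, the logarithms and the values of the G-functions have the following property: if the monomials in `w` are replaced
by their images under a rational linear map, the relation remains true. -/
theorem desc2 (δ : ℕ) (hF : ∀ i, Fam δ (h i)) :
    ∃ c C : ℝ, 0 < c ∧ 0 ≤ C ∧ ∀ (w : σ → ℂ) (x : Fin k → ℕ) (N : ℕ), 1 ≤ N → ∀ S : Finset (Fin k → ℕ),
      (∀ t ∈ S, (∀ i, x i < t i ∧ t i ≤ x i + N) ∧ ∃ Q : MvPolynomial (σ ⊕ Σ i, Option (Fin (r i))) ℚ,
        Q.totalDegree ≤ δ ∧ MvPolynomial.aeval (Sum.elim w (vp h fun i => (t i : ℝ))) Q = 0 ∧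
        ∃ ψ : ℂ →ₗ[ℚ] ℂ, ∑ u ∈ Q.support, ((Q.coeff u : ℚ) : ℂ) * (ψ (∏ i, w i ^ u (Sum.inl i)) *
          ∏ i, vp h (fun i => (t i : ℝ)) i ^ u (Sum.inr i)) ≠ 0) →
      (S.card : ℝ) ≤ C * (N : ℝ) ^ (k - 1) * ∑ i, (1 + N / ((x i : ℝ) + N) ^ c) := by
  classical
  obtain ⟨c, C, hc, hC, hmain⟩ := desc δ (Fintype.card (Jx σ δ)) hF
  refine ⟨c, C, hc, hC, fun w x N hN S hS => ?_⟩
  let f : Jx σ δ → ℂ := fun j => ∏ i, w i ^ (j.1 i : ℕ)
  let V : Submodule ℚ ℂ := Submodule.span ℚ (Set.range f)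
  have hVfin : Module.Finite ℚ V := Module.Finite.span_of_finite ℚ (Set.finite_range f)
  have hVr : Module.finrank ℚ V ≤ Fintype.card (Jx σ δ) := finrank_range_le_card (R := ℚ) f
  refine hmain V hVr x N hN S fun t ht => ?_
  obtain ⟨hbox, Q, hQd, hQ0, ψ, hψ⟩ := hS t ht
  set v := vp h fun i => (t i : ℝ) with hv
  let u₂ : ((σ ⊕ Σ i, Option (Fin (r i))) →₀ ℕ) → ((Σ i, Option (Fin (r i))) →₀ ℕ) := fun u =>
    Finsupp.equivFunOnFinite.symm fun i => u (Sum.inr i)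
  let P : MvPolynomial (Σ i, Option (Fin (r i))) ℂ := ∑ u ∈ Q.support,
    MvPolynomial.monomial (u₂ u) (((Q.coeff u : ℚ) : ℂ) * ∏ i, w i ^ u (Sum.inl i))
  have hev : ∀ (u : (σ ⊕ Σ i, Option (Fin (r i))) →₀ ℕ) (b : ℂ), MvPolynomial.aeval v (MvPolynomial.monomial (u₂ u) b) =
      b * ∏ i, v i ^ u (Sum.inr i) := by
    intro u b
    rw [MvPolynomial.aeval_monomial, Finsupp.prod_fintype _ _ (fun _ => pow_zero _)]
    rfl
  have hsum : ∀ u ∈ Q.support, ∑ i, u (Sum.inl i) + ∑ i, u (Sum.inr i) ≤ δ := by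
    intro u hu
    have h1 := (MvPolynomial.le_totalDegree hu).trans hQd
    rw [Finsupp.sum_fintype _ _ (fun _ => rfl), Fintype.sum_sum_type] at h1
    exact h1
  refine ⟨hbox, P, ?_, fun s => ?_, ?_, ψ, ?_⟩
  · refine (MvPolynomial.totalDegree_finsetSum _ _).trans (Finset.sup_le fun u hu => ?_)
    refine (MvPolynomial.totalDegree_monomial_le _ _).trans ?_
    rw [Finsupp.sum_fintype _ _ (fun _ => rfl)]
    exact (Nat.le_add_left _ _).trans (hsum u hu)
  · rw [MvPolynomial.coeff_sum]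
    refine V.sum_mem fun u hu => ?_
    rw [MvPolynomial.coeff_monomial]
    split_ifs
    · have h1 : ((Q.coeff u : ℚ) : ℂ) * ∏ i, w i ^ u (Sum.inl i) = (Q.coeff u) • ∏ i, w i ^ u (Sum.inl i) := by
        rw [Rat.smul_def]
      rw [h1]
      refine V.smul_mem _ (Submodule.subset_span ?_)
      have h2 : ∑ i, u (Sum.inl i) ≤ δ := (Nat.le_add_right _ _).trans (hsum u hu)
      refine ⟨⟨fun i => ⟨u (Sum.inl i), Nat.lt_succ_of_le ((Finset.single_le_sum (f := fun i => u (Sum.inl i))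
        (fun _ _ => Nat.zero_le _) (Finset.mem_univ i)).trans h2)⟩, h2⟩, rfl⟩
    · exact V.zero_mem
  · rw [map_sum]
    rw [MvPolynomial.aeval_def, MvPolynomial.eval₂_eq'] at hQ0
    refine Eq.trans (Finset.sum_congr rfl fun u _ => ?_) hQ0
    rw [hev, Fintype.prod_sum_type, mul_assoc]
    rfl
  · have h1 : MvPolynomial.aeval v (app ψ P) = ∑ u ∈ Q.support, ((Q.coeff u : ℚ) : ℂ) * (ψ (∏ i, w i ^ u (Sum.inl i)) *
        ∏ i, v i ^ u (Sum.inr i)) := by
      rw [app_sum, map_sum]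
      refine Finset.sum_congr rfl fun u _ => ?_
      rw [app_monomial, hev, ← mul_assoc]
      congr 1
      have h2 : ((Q.coeff u : ℚ) : ℂ) * ∏ i, w i ^ u (Sum.inl i) = (Q.coeff u) • ∏ i, w i ^ u (Sum.inl i) := by
        rw [Rat.smul_def]
      rw [h2, map_smul, Rat.smul_def]
    rw [h1]
    exact hψ

end

end Q207.EP
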