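import Pool.Agent.Q207.EP.Int

/-!
# Numbers which are algebraically independent over a field of constants
-/

set_option autoImplicit false

open PowerSeries Pool.Agent.Y113 Pool.Agent.Y120.GF Pool.Agent.Y120.GH Pool.Agent.Y120.R

namespace Q207.EP

section
variable {m g : ℕ} {τ : Type} [Fintype τ]

lemma coeff_functional (β : Fin m → ℂ) (ξ : Fin g → ℂ)
    (hβ : AlgebraicIndependent (IntermediateField.adjoin ℚ (Set.range ξ)) β) :
    ∃ ψ : (Fin m →₀ ℕ) → ℂ →ₗ[ℚ] ℂ, ∀ (b a : Fin m →₀ ℕ) (α : Fin g → ℕ),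
      ψ b ((∏ i, β i ^ a i) * ∏ i, ξ i ^ α i) = if a = b then ∏ i, ξ i ^ α i else 0 := by
  classical
  let F := IntermediateField.adjoin ℚ (Set.range ξ)
  let φ : MvPolynomial (Fin m) F →ₗ[F] ℂ := (MvPolynomial.aeval β : MvPolynomial (Fin m) F →ₐ[F] ℂ).toLinearMap
  have hφ : LinearMap.ker φ = ⊥ := LinearMap.ker_eq_bot.2 hβ
  obtain ⟨L, hL⟩ := LinearMap.exists_leftInverse_of_injective φ hφ
  let ι : F →ₗ[ℚ] ℂ := (Algebra.linearMap F ℂ).restrictScalars ℚ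
  refine ⟨fun b => ι.comp (((MvPolynomial.lcoeff F b).comp L).restrictScalars ℚ), fun b a α => ?_⟩
  have hmem : ∏ i, ξ i ^ α i ∈ F :=
    F.prod_mem fun i _ => pow_mem (IntermediateField.subset_adjoin ℚ _ (Set.mem_range_self i)) _
  have h1 : (∏ i, β i ^ a i) * ∏ i, ξ i ^ α i = φ (MvPolynomial.monomial a (⟨_, hmem⟩ : F)) := by
    change _ = MvPolynomial.aeval β _
    rw [MvPolynomial.aeval_monomial, Finsupp.prod_fintype _ _ (fun _ => pow_zero _), mul_comm]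
    rfl
  rw [h1]
  change ((MvPolynomial.coeff b (L (φ _)) : F) : ℂ) = _
  have h2 : L (φ (MvPolynomial.monomial a (⟨_, hmem⟩ : F))) = MvPolynomial.monomial a (⟨_, hmem⟩ : F) :=
    LinearMap.congr_fun hL _
  rw [h2, MvPolynomial.coeff_monomial]
  split_ifs
  · rfl
  · rfl

/-- if all images of a relation vanish, the relation is an identity in the independent numbers -/
lemma sum_functionals (β : Fin m → ℂ) (ξ : Fin g → ℂ) (ψ : (Fin m →₀ ℕ) → ℂ →ₗ[ℚ] ℂ)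
    (hψ : ∀ (b a : Fin m →₀ ℕ) (α : Fin g → ℕ),
      ψ b ((∏ i, β i ^ a i) * ∏ i, ξ i ^ α i) = if a = b then ∏ i, ξ i ^ α i else 0) (v : τ → ℂ)
    (Q : MvPolynomial ((Fin m ⊕ Fin g) ⊕ τ) ℚ) (hQ : ∀ b, Psi (ψ b) (Sum.elim β ξ) v Q = 0) (y : Fin m → ℂ) :
    MvPolynomial.aeval (Sum.elim (Sum.elim y ξ) v) Q = 0 := by
  classical
  let pr : (((Fin m ⊕ Fin g) ⊕ τ) →₀ ℕ) → (Fin m →₀ ℕ) := fun u =>
    Finsupp.equivFunOnFinite.symm fun i => u (Sum.inl (Sum.inl i))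
  have h1 : ∑ b ∈ Q.support.image pr, (∏ i, y i ^ b i) * Psi (ψ b) (Sum.elim β ξ) v Q = 0 :=
    Finset.sum_eq_zero fun b _ => by rw [hQ, mul_zero]
  rw [← h1, MvPolynomial.aeval_def, MvPolynomial.eval₂_eq']
  have h2 : ∀ b, Psi (ψ b) (Sum.elim β ξ) v Q = ∑ u ∈ Q.support, ((Q.coeff u : ℚ) : ℂ) *
      ((if pr u = b then ∏ i, ξ i ^ u (Sum.inl (Sum.inr i)) else 0) * ∏ i, v i ^ u (Sum.inr i)) := by
    intro b
    rw [Psi_eq]
    refine Finset.sum_congr rfl fun u _ => ?_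
    have h3 := hψ b (pr u) fun i => u (Sum.inl (Sum.inr i))
    rw [← h3, Fintype.prod_sum_type]
    rfl
  have h4 : ∑ b ∈ Q.support.image pr, (∏ i, y i ^ b i) * Psi (ψ b) (Sum.elim β ξ) v Q =
      ∑ u ∈ Q.support, ∑ b ∈ Q.support.image pr, (∏ i, y i ^ b i) * (((Q.coeff u : ℚ) : ℂ) *
      ((if pr u = b then ∏ i, ξ i ^ u (Sum.inl (Sum.inr i)) else 0) * ∏ i, v i ^ u (Sum.inr i))) := by
    rw [Finset.sum_comm]
    refine Finset.sum_congr rfl fun b _ => ?_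
    rw [h2, Finset.mul_sum]
  rw [h4]
  refine Finset.sum_congr rfl fun u hu => ?_
  rw [Finset.sum_eq_single (pr u)]
  · rw [if_pos rfl, Fintype.prod_sum_type, Fintype.prod_sum_type]
    simp only [Sum.elim_inl, Sum.elim_inr]
    change (algebraMap ℚ ℂ _) * _ = (∏ i, y i ^ u (Sum.inl (Sum.inl i))) * _
    rw [eq_ratCast]
    ring
  · intro b _ hb
    rw [if_neg (Ne.symm hb)]
    ring
  · intro hn
    exact absurd (Finset.mem_image_of_mem _ hu) hn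

end

section
variable {k : ℕ} {r : Fin k → ℕ} {h : ∀ i, Fin (r i) → ℚ⟦X⟧}

theorem algind (m g δ : ℕ) (hF : ∀ i, Fam δ (h i)) :
    ∃ c C : ℝ, 0 < c ∧ 0 ≤ C ∧ ∀ (β : Fin m → ℂ) (ξ : Fin g → ℂ),
      AlgebraicIndependent (IntermediateField.adjoin ℚ (Set.range ξ)) β →
      ∀ (x : Fin k → ℕ) (N : ℕ), 1 ≤ N → ∀ S : Finset (Fin k → ℕ),
      (∀ t ∈ S, (∀ i, x i < t i ∧ t i ≤ x i + N) ∧
        ∃ P : MvPolynomial ((Fin m ⊕ Fin g) ⊕ Σ i, Option (Fin (r i))) ℚ, P.totalDegree ≤ δ ∧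
        MvPolynomial.aeval (Sum.elim (Sum.elim β ξ) (vp h fun i => (t i : ℝ))) P = 0 ∧
        ∃ y : Fin m → ℂ, MvPolynomial.aeval (Sum.elim (Sum.elim y ξ) (vp h fun i => (t i : ℝ))) P ≠ 0) →
      (S.card : ℝ) ≤ C * (N : ℝ) ^ (k - 1) * ∑ i, (1 + N / ((x i : ℝ) + N) ^ c) := by
  classical
  obtain ⟨c, C, hc, hC, hmain⟩ := desc2 (σ := Fin m ⊕ Fin g) δ hF
  refine ⟨c, C, hc, hC, fun β ξ hβ x N hN S hS => ?_⟩
  obtain ⟨ψ, hψ⟩ := coeff_functional β ξ hβ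
  refine hmain (Sum.elim β ξ) x N hN S fun t ht => ?_
  obtain ⟨hbox, P, hPd, hP0, y, hy⟩ := hS t ht
  refine ⟨hbox, P, hPd, hP0, ?_⟩
  by_contra hno
  push Not at hno
  apply hy
  refine sum_functionals β ξ ψ hψ _ P (fun b => ?_) y
  rw [Psi_eq]
  exact hno (ψ b)

end

end Q207.EP
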