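import Pool.Agent.Q207.EP.Desc2

/-!
# Numbers which are not integral, or which are algebraically independent, over a ring of constants
-/

set_option autoImplicit false

open PowerSeries Pool.Agent.Y113 Pool.Agent.Y120.GF Pool.Agent.Y120.GH Pool.Agent.Y120.R

namespace Q207.EP

section
variable {σ τ : Type} [Fintype σ] [Fintype τ]

/-- the relation `Q` with the monomials in `w` replaced by their images -/
noncomputable def Psi (ψ : ℂ →ₗ[ℚ] ℂ) (w : σ → ℂ) (v : τ → ℂ) : MvPolynomial (σ ⊕ τ) ℚ →ₗ[ℚ] ℂ :=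
  (MvPolynomial.basisMonomials (σ ⊕ τ) ℚ).constr ℚ fun u => ψ (∏ i, w i ^ u (Sum.inl i)) * ∏ i, v i ^ u (Sum.inr i)

lemma Psi_monomial (ψ : ℂ →ₗ[ℚ] ℂ) (w : σ → ℂ) (v : τ → ℂ) (u : (σ ⊕ τ) →₀ ℕ) (a : ℚ) :
    Psi ψ w v (MvPolynomial.monomial u a) = (a : ℂ) * (ψ (∏ i, w i ^ u (Sum.inl i)) * ∏ i, v i ^ u (Sum.inr i)) := by
  have h1 : MvPolynomial.monomial u a = a • MvPolynomial.basisMonomials (σ ⊕ τ) ℚ u := by
    rw [MvPolynomial.coe_basisMonomials, MvPolynomial.smul_monomial, smul_eq_mul, mul_one]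
  rw [h1, map_smul, Psi, Module.Basis.constr_basis, Rat.smul_def]

lemma Psi_eq (ψ : ℂ →ₗ[ℚ] ℂ) (w : σ → ℂ) (v : τ → ℂ) (Q : MvPolynomial (σ ⊕ τ) ℚ) :
    Psi ψ w v Q = ∑ u ∈ Q.support, ((Q.coeff u : ℚ) : ℂ) * (ψ (∏ i, w i ^ u (Sum.inl i)) * ∏ i, v i ^ u (Sum.inr i)) := by
  conv_lhs => rw [Q.as_sum, map_sum]
  exact Finset.sum_congr rfl fun u _ => Psi_monomial _ _ _ _ _

end

section
variable {k : ℕ} {r : Fin k → ℕ} {h : ∀ i, Fin (r i) → ℚ⟦X⟧}

theorem integ (g d m : ℕ) (hF : ∀ i, Fam (d + m) (h i)) :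
    ∃ c C : ℝ, 0 < c ∧ 0 ≤ C ∧ ∀ (ξ : Fin g → ℂ) (β : ℂ), ¬ IsIntegral (Algebra.adjoin ℚ (Set.range ξ)) β →
      ∀ (x : Fin k → ℕ) (N : ℕ), 1 ≤ N → ∀ S : Finset (Fin k → ℕ),
      (∀ t ∈ S, (∀ i, x i < t i ∧ t i ≤ x i + N) ∧ ∃ P : Fin m → MvPolynomial (Fin g ⊕ Σ i, Option (Fin (r i))) ℚ,
        (∀ j, (P j).totalDegree ≤ d) ∧
        β ^ m + ∑ j, MvPolynomial.aeval (Sum.elim ξ (vp h fun i => (t i : ℝ))) (P j) * β ^ (j : ℕ) = 0) →
      (S.card : ℝ) ≤ C * (N : ℝ) ^ (k - 1) * ∑ i, (1 + N / ((x i : ℝ) + N) ^ c) := by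
  classical
  obtain ⟨c, C, hc, hC, hmain⟩ := desc2 (σ := Option (Fin g)) (d + m) hF
  refine ⟨c, C, hc, hC, fun ξ β hβ x N hN S hS => ?_⟩
  let w : Option (Fin g) → ℂ := fun o => o.elim β ξ
  -- the space spanned by the products of `β ^ j`, `j < m`, and elements of the ring
  let R := Algebra.adjoin ℚ (Set.range ξ)
  let W : Submodule ℚ ℂ := Submodule.span ℚ {z : ℂ | ∃ a ∈ R, ∃ j < m, z = a * β ^ j}
  have hW : β ^ m ∉ W := by
    intro hmem
    apply hβ
    have h1 : ∀ z ∈ W, ∃ a : Fin m → R, z = ∑ j, (a j : ℂ) * β ^ (j : ℕ) := by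
      intro z hz
      refine Submodule.span_induction (p := fun z _ => ∃ a : Fin m → R, z = ∑ j, (a j : ℂ) * β ^ (j : ℕ)) ?_ ?_ ?_ ?_ hz
      · rintro z ⟨a, ha, j, hj, rfl⟩
        refine ⟨fun j' => if j' = ⟨j, hj⟩ then ⟨a, ha⟩ else 0, ?_⟩
        rw [Finset.sum_eq_single ⟨j, hj⟩]
        · beta_reduce
          rw [if_pos rfl]
        · intro j' _ hne
          beta_reduce
          rw [if_neg hne]
          simp
        · intro h2
          exact absurd (Finset.mem_univ _) h2
      · exact ⟨fun _ => 0, by simp⟩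
      · rintro z z' _ _ ⟨a, ha⟩ ⟨a', ha'⟩
        refine ⟨fun j => a j + a' j, ?_⟩
        rw [ha, ha', ← Finset.sum_add_distrib]
        refine Finset.sum_congr rfl fun j _ => ?_
        push_cast
        ring
      · rintro q z _ ⟨a, ha⟩
        refine ⟨fun j => q • a j, ?_⟩
        rw [ha, Finset.smul_sum]
        refine Finset.sum_congr rfl fun j _ => ?_
        rw [Subalgebra.coe_smul, smul_mul_assoc]
    obtain ⟨a, ha⟩ := h1 _ hmem
    refine ⟨Polynomial.X ^ m - ∑ j : Fin m, Polynomial.C (a j) * Polynomial.X ^ (j : ℕ), ?_, ?_⟩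
    · refine Polynomial.monic_X_pow_sub ?_
      refine lt_of_le_of_lt (Polynomial.degree_sum_le _ _) ?_
      rw [Finset.sup_lt_iff (by exact WithBot.bot_lt_coe _)]
      intro j _
      refine lt_of_le_of_lt (Polynomial.degree_C_mul_X_pow_le _ _) ?_
      exact_mod_cast j.2
    · rw [Polynomial.eval₂_sub, Polynomial.eval₂_X_pow, Polynomial.eval₂_finsetSum, ha, sub_eq_zero]
      refine Finset.sum_congr rfl fun j _ => ?_
      rw [Polynomial.eval₂_mul, Polynomial.eval₂_C, Polynomial.eval₂_X_pow]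
      rfl
  obtain ⟨f, hf1, hf2⟩ := Submodule.exists_dual_map_eq_bot_of_notMem hW inferInstance
  let ψ : ℂ →ₗ[ℚ] ℂ := (Algebra.linearMap ℚ ℂ).comp f
  have hψ0 : ∀ z ∈ W, ψ z = 0 := by
    intro z hz
    have h1 : f z ∈ W.map f := Submodule.mem_map_of_mem hz
    rw [hf2, Submodule.mem_bot] at h1
    change algebraMap ℚ ℂ (f z) = 0
    rw [h1, map_zero]
  have hψ1 : ψ (β ^ m) ≠ 0 := by
    change algebraMap ℚ ℂ (f (β ^ m)) ≠ 0
    rw [eq_ratCast]
    exact_mod_cast hf1
  refine hmain w x N hN S fun t ht => ?_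
  obtain ⟨hbox, P, hPd, hP0⟩ := hS t ht
  set v := vp h fun i => (t i : ℝ) with hv
  let Q : MvPolynomial (Option (Fin g) ⊕ Σ i, Option (Fin (r i))) ℚ :=
    MvPolynomial.X (Sum.inl none) ^ m + ∑ j : Fin m, MvPolynomial.rename (Sum.map some id) (P j) *
      MvPolynomial.X (Sum.inl none) ^ (j : ℕ)
  refine ⟨hbox, Q, ?_, ?_, ψ, ?_⟩
  · refine (MvPolynomial.totalDegree_add _ _).trans (max_le ?_ ?_)
    · refine (MvPolynomial.totalDegree_pow _ _).trans ?_
      rw [MvPolynomial.totalDegree_X]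
      omega
    · refine (MvPolynomial.totalDegree_finsetSum _ _).trans (Finset.sup_le fun j _ => ?_)
      refine (MvPolynomial.totalDegree_mul _ _).trans ?_
      refine add_le_add ((MvPolynomial.totalDegree_rename_le _ _).trans (hPd j)) ?_
      refine (MvPolynomial.totalDegree_pow _ _).trans ?_
      rw [MvPolynomial.totalDegree_X]
      have := j.2
      omega
  · rw [map_add, map_pow, MvPolynomial.aeval_X, map_sum]
    refine Eq.trans ?_ hP0
    congr 1
    refine Finset.sum_congr rfl fun j _ => ?_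
    rw [map_mul, map_pow, MvPolynomial.aeval_X, MvPolynomial.aeval_rename]
    have e0 : (Sum.elim w v) ∘ (Sum.map some id) = Sum.elim ξ v := by
      funext s
      rcases s with s | s <;> rfl
    rw [e0]
    rfl
  · rw [← Psi_eq ψ w v Q]
    have e1 : Psi ψ w v Q = ψ (β ^ m) := by
      rw [map_add, map_sum]
      have e2 : Psi ψ w v (MvPolynomial.X (Sum.inl none) ^ m) = ψ (β ^ m) := by
        rw [MvPolynomial.X_pow_eq_monomial, Psi_monomial]
        rw [Finset.prod_eq_single none, Finset.prod_eq_one]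
        · simp [w]
        · intro i _
          simp
        · intro i _ hi
          rw [Finsupp.single_apply, if_neg (by simpa using Ne.symm hi), pow_zero]
        · intro hn
          exact absurd (Finset.mem_univ _) hn
      rw [e2, Finset.sum_eq_zero, add_zero]
      intro j _
      conv_lhs => rw [(P j).as_sum]
      rw [map_sum, Finset.sum_mul, map_sum]
      refine Finset.sum_eq_zero fun u _ => ?_
      rw [MvPolynomial.rename_monomial, MvPolynomial.X_pow_eq_monomial, MvPolynomial.monomial_mul, Psi_monomial]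
      have e3 : ψ (∏ i, w i ^ ((Finsupp.mapDomain (Sum.map some id) u + Finsupp.single (Sum.inl none) (j : ℕ) :
          (Option (Fin g) ⊕ Σ i, Option (Fin (r i))) →₀ ℕ) (Sum.inl i))) = 0 := by
        apply hψ0
        apply Submodule.subset_span
        refine ⟨∏ i, ξ i ^ u (Sum.inl i), ?_, j, j.2, ?_⟩
        · exact Subalgebra.prod_mem _ fun i _ => Subalgebra.pow_mem _ (Algebra.subset_adjoin (Set.mem_range_self i)) _
        · rw [Fintype.prod_option, mul_comm]
          refine congrArg₂ (· * ·) ?_ ?_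
          · refine Finset.prod_congr rfl fun i _ => ?_
            have hinj : Function.Injective (Sum.map some id : Fin g ⊕ (Σ i, Option (Fin (r i))) →
                Option (Fin g) ⊕ Σ i, Option (Fin (r i))) :=
              Sum.map_injective.2 ⟨Option.some_injective _, Function.injective_id⟩
            rw [Finsupp.add_apply, Finsupp.single_apply, if_neg (by simp), add_zero]
            have e4 : (Sum.inl (some i) : Option (Fin g) ⊕ Σ i, Option (Fin (r i))) = Sum.map some id (Sum.inl i) := rfl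
            rw [e4, Finsupp.mapDomain_apply hinj]
            rfl
          · rw [Finsupp.add_apply, Finsupp.single_eq_same, Finsupp.mapDomain_of_notMem_range, zero_add]
            · rfl
            · rintro ⟨s, hs⟩
              rcases s with s | s
              · simp at hs
              · simp at hs
      rw [e3, zero_mul, mul_zero]
    rw [e1]
    exact hψ1

end

end Q207.EP
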