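import Pool.Agent.H340R2.LW

/-!
# The transcendence of `e` and `π` in the form which is needed
-/

set_option autoImplicit false

namespace Q207.EP

/-- Exponentials of `ℚ`-linearly independent algebraic numbers are algebraically independent (the proof is that of
`Pool.Agent.H327R2.SC.lw_algInd`). -/
theorem lw_ind {ι : Type} [Fintype ι] (α : ι → ℂ) (hα : ∀ i, IsAlgebraic ℚ (α i))
    (hli : LinearIndependent ℚ α) : AlgebraicIndependent ℚ (fun i => Complex.exp (α i)) := by
  classical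
  rw [algebraicIndependent_iff]
  intro p hp
  rw [MvPolynomial.aeval_def, MvPolynomial.eval₂_eq'] at hp
  have h := Pool.Agent.H340R2.LW.lindemann_weierstrass p.support
    (fun d => ∑ i, (d i : ℂ) * α i) (fun d => ((p.coeff d : ℚ) : ℂ))
    (fun d _ => (IsIntegral.sum _ fun i _ =>
      ((isAlgebraic_natCast (d i)).mul (hα i)).isIntegral).isAlgebraic)
    (fun d _ => by
      have := isAlgebraic_algebraMap (R := ℚ) (A := ℂ) (p.coeff d)
      simpa using this)
    (fun d _ d' _ hdd => by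
      rw [Fintype.linearIndependent_iff] at hli
      have h1 := hli (fun i => (d i : ℚ) - (d' i : ℚ)) (by
        simp only at hdd
        simp only [Rat.smul_def]
        push_cast
        simp only [sub_mul, Finset.sum_sub_distrib]
        rw [hdd, sub_self])
      ext i
      have h2 := h1 i
      rw [sub_eq_zero] at h2
      exact_mod_cast h2)
    (by
      rw [← hp]
      refine Finset.sum_congr rfl fun d _ => ?_
      rw [Complex.exp_sum]
      congr 1
      refine Finset.prod_congr rfl fun i _ => ?_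
      rw [← Complex.exp_nat_mul])
  ext d
  rw [MvPolynomial.coeff_zero]
  by_cases hd : d ∈ p.support
  · exact_mod_cast h d hd
  · exact MvPolynomial.notMem_support_iff.1 hd

/-- `e` is not integral over `ℚ` -/
theorem exp_not_integral : ¬ IsIntegral (Algebra.adjoin ℚ (Set.range (![] : Fin 0 → ℂ))) (Complex.exp 1) := by
  intro h
  have h1 : Algebra.adjoin ℚ (Set.range (![] : Fin 0 → ℂ)) = ⊥ := by
    rw [Set.range_eq_empty, Algebra.adjoin_empty]
  rw [h1] at h
  apply Pool.Agent.H340R2.LW.transcendental_exp_one_complex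
  have h2 : IsIntegral ℚ (Complex.exp 1) := by
    have h3 : Algebra.IsIntegral ℚ (⊥ : Subalgebra ℚ ℂ) :=
      ⟨fun z => by
        obtain ⟨q, hq⟩ := Algebra.mem_bot.1 z.2
        have h4 : z = algebraMap ℚ (⊥ : Subalgebra ℚ ℂ) q := Subtype.ext hq.symm
        rw [h4]
        exact isIntegral_algebraMap⟩
    exact isIntegral_trans _ h
  exact h2.isAlgebraic

/-- `1 / π` is not integral over `ℚ[π]` -/
theorem inv_pi_not_integral :
    ¬ IsIntegral (Algebra.adjoin ℚ (Set.range (![((Real.pi : ℝ) : ℂ)] : Fin 1 → ℂ))) (1 / ((Real.pi : ℝ) : ℂ)) := by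
  intro h
  have hpi : ((Real.pi : ℝ) : ℂ) ≠ 0 := by
    exact_mod_cast Real.pi_ne_zero
  have h1 : Set.range (![((Real.pi : ℝ) : ℂ)] : Fin 1 → ℂ) = {((Real.pi : ℝ) : ℂ)} := by
    rw [Matrix.range_cons, Matrix.range_empty, Set.union_empty]
  rw [h1] at h
  set R := Algebra.adjoin ℚ {((Real.pi : ℝ) : ℂ)} with hR
  let p : R := ⟨((Real.pi : ℝ) : ℂ), Algebra.self_mem_adjoin_singleton _ _⟩
  -- the inverse is in the ring
  have h2 : 1 / ((Real.pi : ℝ) : ℂ) ∈ R := by
    obtain ⟨f, hf, hf0⟩ := h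
    set n := f.natDegree with hn
    have e1 : ∑ j ∈ Finset.range (n + 1), ((f.coeff j : R) : ℂ) * (1 / ((Real.pi : ℝ) : ℂ)) ^ j = 0 := by
      rw [Polynomial.eval₂_eq_sum_range] at hf0
      exact hf0
    rw [Finset.sum_range_succ] at e1
    have e2 : ((f.coeff n : R) : ℂ) = 1 := by
      rw [hn, hf.coeff_natDegree]
      rfl
    rw [e2, one_mul] at e1
    by_cases hn0 : n = 0
    · rw [hn0] at e1
      simp at e1
    have e3 : 1 / ((Real.pi : ℝ) : ℂ) = -∑ j ∈ Finset.range n, ((f.coeff j : R) : ℂ) * ((Real.pi : ℝ) : ℂ) ^ (n - 1 - j) := by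
      have e4 : (1 / ((Real.pi : ℝ) : ℂ)) ^ n * ((Real.pi : ℝ) : ℂ) ^ (n - 1) = 1 / ((Real.pi : ℝ) : ℂ) := by
        obtain ⟨l, hl⟩ := Nat.exists_eq_succ_of_ne_zero hn0
        rw [hl, Nat.succ_eq_add_one, Nat.add_sub_cancel, pow_succ, mul_right_comm, ← mul_pow]
        rw [one_div, inv_mul_cancel₀ hpi, one_pow, one_mul]
      have e5 : (1 / ((Real.pi : ℝ) : ℂ)) ^ n = -∑ j ∈ Finset.range n, ((f.coeff j : R) : ℂ) * (1 / ((Real.pi : ℝ) : ℂ)) ^ j := by
        linear_combination e1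
      rw [← e4, e5, neg_mul, Finset.sum_mul]
      congr 1
      refine Finset.sum_congr rfl fun j hj => ?_
      have hj' : j < n := Finset.mem_range.1 hj
      have e6 : ((Real.pi : ℝ) : ℂ) ^ (n - 1) = ((Real.pi : ℝ) : ℂ) ^ j * ((Real.pi : ℝ) : ℂ) ^ (n - 1 - j) := by
        rw [← pow_add]
        congr 1
        omega
      rw [e6]
      have e7 : (1 / ((Real.pi : ℝ) : ℂ)) ^ j * ((Real.pi : ℝ) : ℂ) ^ j = 1 := by
        rw [← mul_pow, one_div, inv_mul_cancel₀ hpi, one_pow]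
      linear_combination (((f.coeff j : R) : ℂ) * ((Real.pi : ℝ) : ℂ) ^ (n - 1 - j)) * e7
    rw [e3]
    refine R.neg_mem (R.sum_mem fun j _ => R.mul_mem (f.coeff j).2 (R.pow_mem p.2 _))
  rw [hR, Algebra.adjoin_singleton_eq_range_aeval] at h2
  obtain ⟨q, hq⟩ := h2
  apply Pool.Agent.H340R2.LW.transcendental_pi_complex
  have h3 : Polynomial.aeval ((Real.pi : ℝ) : ℂ) (q * Polynomial.X - 1) = 0 := by
    rw [map_sub, map_mul, Polynomial.aeval_X, map_one]
    have h4 : Polynomial.aeval ((Real.pi : ℝ) : ℂ) q = 1 / ((Real.pi : ℝ) : ℂ) := hq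
    rw [h4, one_div, inv_mul_cancel₀ hpi, sub_self]
  refine ⟨q * Polynomial.X - 1, ?_, h3⟩
  intro h4
  have h5 := congrArg (fun f => Polynomial.coeff f 0) h4
  simp at h5

/-- numbers which are integral over a subring do not matter for integrality -/
lemma integral_drop (X₀ X : Set ℂ) (hX : ∀ z ∈ X, IsIntegral (Algebra.adjoin ℚ X₀) z) (β : ℂ)
    (h : IsIntegral (Algebra.adjoin ℚ X) β) : IsIntegral (Algebra.adjoin ℚ X₀) β := by
  let S := integralClosure (Algebra.adjoin ℚ X₀) ℂ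
  have h1 : Algebra.adjoin ℚ X ≤ S.restrictScalars ℚ := Algebra.adjoin_le fun z hz => hX z hz
  let φ : Algebra.adjoin ℚ X →+* S := (Subalgebra.inclusion h1 : Algebra.adjoin ℚ X →ₐ[ℚ] S.restrictScalars ℚ).toRingHom
  obtain ⟨f, hf, hf0⟩ := h
  have h2 : IsIntegral S β := by
    refine ⟨f.map φ, hf.map _, ?_⟩
    rw [Polynomial.eval₂_map]
    exact hf0
  exact isIntegral_trans _ h2

/-- `e` is not integral over a ring which is generated by algebraic numbers -/
theorem exp_not_integral' {g : ℕ} (ω : Fin g → ℂ) (hω : ∀ i, IsAlgebraic ℚ (ω i)) :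
    ¬ IsIntegral (Algebra.adjoin ℚ (Set.range ω)) (Complex.exp 1) := by
  intro h
  refine exp_not_integral (integral_drop _ _ ?_ _ h)
  rintro z ⟨i, rfl⟩
  exact (hω i).isIntegral.tower_top

/-- `1 / π` is not integral over a ring which is generated by `π` and algebraic numbers -/
theorem inv_pi_not_integral' {g : ℕ} (ω : Fin g → ℂ) (hω : ∀ i, IsAlgebraic ℚ (ω i)) :
    ¬ IsIntegral (Algebra.adjoin ℚ (Set.range (Fin.cons ((Real.pi : ℝ) : ℂ) ω : Fin (g + 1) → ℂ))) (1 / ((Real.pi : ℝ) : ℂ)) := by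
  intro h
  refine inv_pi_not_integral (integral_drop _ _ ?_ _ h)
  rintro z ⟨i, rfl⟩
  refine Fin.cases ?_ (fun i => ?_) i
  · have h1 : ((Real.pi : ℝ) : ℂ) ∈ Algebra.adjoin ℚ (Set.range (![((Real.pi : ℝ) : ℂ)] : Fin 1 → ℂ)) :=
      Algebra.subset_adjoin ⟨0, rfl⟩
    exact isIntegral_algebraMap (x := (⟨_, h1⟩ : Algebra.adjoin ℚ (Set.range (![((Real.pi : ℝ) : ℂ)] : Fin 1 → ℂ))))
  · rw [Fin.cons_succ]
    exact (hω i).isIntegral.tower_top

end Q207.EP
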