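import Pool.Agent.Q207.EP.Core

/-!
# The equality of periods is decided by a primitive recursive predicate at almost all tuples of integers
-/

set_option autoImplicit false
set_option linter.unusedSectionVars false

open PowerSeries Pool.Agent.Y120.R

namespace Q207.EP

section
variable {g d : ℕ} {κ I : Type} [Fintype I] [DecidableEq I] (nm : κ → I)

/-- the exponent of a product of names -/
noncomputable def expo (L : List κ) : I →₀ ℕ := (L.map fun v => Finsupp.single (nm v) 1).sum

lemma expo_cons (v : κ) (L : List κ) : expo nm (v :: L) = Finsupp.single (nm v) 1 + expo nm L := by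
  unfold expo
  rw [List.map_cons, List.sum_cons]

lemma expo_sum (L : List κ) : ((expo nm L).sum fun _ e => e) = L.length := by
  induction L with
  | nil => rfl
  | cons v L ih =>
    rw [expo_cons, Finsupp.sum_add_index' (fun _ => rfl) (fun _ _ _ => rfl), ih, Finsupp.sum_single_index rfl,
      List.length_cons, add_comm]

lemma expo_prod (f : I → ℂ) (L : List κ) : ((expo nm L).prod fun v e => f v ^ e) = (L.map fun v => f (nm v)).prod := by
  induction L with
  | nil => rfl
  | cons v L ih =>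
    have h1 : ((Finsupp.single (nm v) 1 : I →₀ ℕ).prod fun v e => f v ^ e) = f (nm v) := by
      rw [Finsupp.prod_single_index (h := fun v e => f v ^ e) (pow_zero _), pow_one]
    rw [expo_cons, Finsupp.prod_add_index' (h := fun v e => f v ^ e) (fun _ => pow_zero _) (fun _ _ _ => pow_add _ _ _), ih,
      h1, List.map_cons, List.prod_cons]

lemma mon_list (f : I → ℂ) {L : List κ} (h : L.length ≤ d) :
    ∑ j : Jx I d, (if expo nm L = ex j then mon f j else 0) = (L.map fun v => f (nm v)).prod := by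
  obtain ⟨j₀, hj₀⟩ := ex_surj (d := d) (s := expo nm L) (by rw [expo_sum]; exact h)
  rw [Finset.sum_eq_single j₀]
  · rw [if_pos hj₀.symm, ← expo_prod nm f L, ← hj₀, Finsupp.prod_fintype _ _ (fun _ => pow_zero _)]
    rfl
  · intro j _ hj
    rw [if_neg]
    intro h1
    exact hj (ex_inj (h1.symm.trans hj₀.symm))
  · intro h1
    exact absurd (Finset.mem_univ _) h1

/-- the vector of the coefficients -/
noncomputable def cv (E : List (ℤ × Fin g × List κ)) (α : Fin g × Jx I d) : ℤ :=
  (E.map fun x => if x.2.1 = α.1 ∧ expo nm x.2.2 = ex α.2 then x.1 else 0).sum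

lemma cv_sum {R : Type} [CommRing R] (w : Fin g × Jx I d → R) (E : List (ℤ × Fin g × List κ)) :
    ∑ α, (cv nm E α : R) * w α =
      (E.map fun x => (x.1 : R) * ∑ j, if expo nm x.2.2 = ex j then w (x.2.1, j) else 0).sum := by
  induction E with
  | nil =>
    rw [List.map_nil, List.sum_nil]
    refine Finset.sum_eq_zero fun α _ => ?_
    unfold cv
    rw [List.map_nil, List.sum_nil, Int.cast_zero, zero_mul]
  | cons x E ih =>
    rw [List.map_cons, List.sum_cons, ← ih]
    have h1 : ∀ α : Fin g × Jx I d, (cv nm (x :: E) α : R) * w α =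
        (if x.2.1 = α.1 ∧ expo nm x.2.2 = ex α.2 then (x.1 : R) * w α else 0) + (cv nm E α : R) * w α := by
      intro α
      unfold cv
      rw [List.map_cons, List.sum_cons, Int.cast_add, add_mul]
      congr 1
      split_ifs
      · rfl
      · rw [Int.cast_zero, zero_mul]
    rw [Finset.sum_congr rfl fun α _ => h1 α, Finset.sum_add_distrib]
    congr 1
    rw [Fintype.sum_prod_type, Finset.sum_eq_single x.2.1, Finset.mul_sum]
    · refine Finset.sum_congr rfl fun j _ => ?_
      by_cases h : expo nm x.2.2 = ex j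
      · rw [if_pos ⟨rfl, h⟩, if_pos h]
      · rw [if_neg (fun h2 => h h2.2), if_neg h, mul_zero]
    · intro c _ hc
      refine Finset.sum_eq_zero fun j _ => ?_
      rw [if_neg]
      intro h2
      exact hc h2.1.symm
    · intro h2
      exact absurd (Finset.mem_univ _) h2

/-- the value of an expression -/
noncomputable def val (ξ : Fin g → ℂ) (f : I → ℂ) (E : List (ℤ × Fin g × List κ)) : ℂ :=
  (E.map fun x => (x.1 : ℂ) * (ξ x.2.1 * (x.2.2.map fun v => f (nm v)).prod)).sum

lemma val_eq (ξ : Fin g → ℂ) (f : I → ℂ) {E : List (ℤ × Fin g × List κ)} (hE : ∀ x ∈ E, x.2.2.length ≤ d) :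
    val nm ξ f E = ∑ α : Fin g × Jx I d, (cv nm E α : ℂ) * (ξ α.1 * mon f α.2) := by
  rw [cv_sum nm (fun α : Fin g × Jx I d => ξ α.1 * mon f α.2) E]
  unfold val
  congr 1
  refine List.map_congr_left fun x hx => ?_
  congr 1
  rw [← mon_list nm f (hE x hx), Finset.mul_sum]
  refine Finset.sum_congr rfl fun j _ => ?_
  by_cases h : expo nm x.2.2 = ex j
  · rw [if_pos h, if_pos h]
  · rw [if_neg h, if_neg h, mul_zero]

end

section
variable {k : ℕ} {r n : Fin k → ℕ} {h : ∀ i, Fin (r i) → ℚ⟦X⟧} {κ : Type} [Primcodable κ] [Finite κ]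

theorem main (d e g : ℕ) (nm : κ → Σ i, Fin (n i)) (hF : ∀ i, Fam (d * e) (h i)) :
    ∃ c : ℝ, 0 < c ∧ ∀ (q : ∀ i, Fin (n i) → MvPolynomial (Option (Fin (r i))) ℂ), (∀ i j, (q i j).totalDegree ≤ e) →
      ∀ ξ : Fin g → ℂ, ∃ (C₀ : ℝ) (Q : (Fin k → ℕ) × List (ℤ × Fin g × List κ) × List (ℤ × Fin g × List κ) → Prop),
        PrimrecPred Q ∧
        (∀ t E F, (∀ x ∈ E, x.2.2.length ≤ d) → (∀ x ∈ F, x.2.2.length ≤ d) → Q (t, E, F) →
          val nm ξ (pv q h fun i => (t i : ℝ)) E = val nm ξ (pv q h fun i => (t i : ℝ)) F) ∧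
        ∀ (x : Fin k → ℕ) (N : ℕ), 1 ≤ N → ∀ S : Finset (Fin k → ℕ),
          (∀ t ∈ S, (∀ i, x i < t i ∧ t i ≤ x i + N) ∧ ∃ E F : List (ℤ × Fin g × List κ),
            (∀ x ∈ E, x.2.2.length ≤ d) ∧ (∀ x ∈ F, x.2.2.length ≤ d) ∧
            val nm ξ (pv q h fun i => (t i : ℝ)) E = val nm ξ (pv q h fun i => (t i : ℝ)) F ∧ ¬ Q (t, E, F)) →
          (S.card : ℝ) ≤ C₀ * (N : ℝ) ^ (k - 1) * ∑ i, (1 + N / ((x i : ℝ) + N) ^ c) := by
  classical
  obtain ⟨c, C, hc, hC, hrel⟩ := relX (n := n) d e g hF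
  refine ⟨c, hc, fun q hq ξ => ?_⟩
  set f : (Fin k → ℝ) → (Σ i, Fin (n i)) → ℂ := fun s => pv q h s with hf
  obtain ⟨τ, G, B, P, hG, hsound, hcomp⟩ := core d f
  -- integral conditions
  choose p W hW using fun b : B => rat (k := k) (A := Fin g × Jx (Σ i, Fin (n i)) d) fun α => MvPolynomial.C (ξ α.1) * P b α.2
  obtain ⟨p', W', hW'⟩ := rat (k := k) (A := Unit) fun _ => G
  let T₀ : ℕ := ⌈max τ 0⌉₊
  have hT₀ : ∀ t : Fin k → ℕ, (∀ i, T₀ < t i) → ∀ i, τ < (t i : ℝ) := by
    intro t ht i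
    have h1 : max τ 0 ≤ (T₀ : ℝ) := Nat.le_ceil _
    have h2 : (T₀ : ℝ) < t i := by exact_mod_cast ht i
    exact lt_of_le_of_lt ((le_max_left _ _).trans h1) h2
  let ω : (Σ b : B, Fin (p b)) → Fin g × List κ → MvPolynomial (Fin k) ℤ := fun y x =>
    ∑ j, if expo nm x.2 = ex j then W y.1 y.2 (x.1, j) else 0
  let lin : (Σ b : B, Fin (p b)) → (Fin k → ℕ) → List (ℤ × Fin g × List κ) → ℤ := fun y t E =>
    (E.map fun x => x.1 * MvPolynomial.eval (fun i => (t i : ℤ)) (ω y x.2)).sum
  let Q : (Fin k → ℕ) × List (ℤ × Fin g × List κ) × List (ℤ × Fin g × List κ) → Prop := fun z =>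
    ((∀ i, T₀ < z.1 i) ∧ ¬ ∀ i, MvPolynomial.eval (fun i => (z.1 i : ℤ)) (W' i ()) = 0) ∧
      ∀ y, lin y z.1 z.2.1 = lin y z.1 z.2.2
  have hlin : ∀ y t (E : List (ℤ × Fin g × List κ)), lin y t E =
      ∑ α, cv nm E α * MvPolynomial.eval (fun i => (t i : ℤ)) (W y.1 y.2 α) := by
    intro y t E
    have h1 := cv_sum (R := ℤ) (d := d) nm (fun α => MvPolynomial.eval (fun i => (t i : ℤ)) (W y.1 y.2 α)) E
    simp only [Int.cast_id] at h1
    rw [h1]
    simp only [lin, ω]
    congr 1
    refine List.map_congr_left fun x _ => ?_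
    congr 1
    rw [map_sum]
    refine Finset.sum_congr rfl fun j _ => ?_
    by_cases h2 : expo nm x.2.2 = ex j
    · rw [if_pos h2, if_pos h2]
    · rw [if_neg h2, if_neg h2, map_zero]
  -- the meaning of `Q`
  have hkey : ∀ t : Fin k → ℕ, (∀ i, T₀ < t i) → ∀ E F : List (ℤ × Fin g × List κ),
      (∀ y, lin y t E = lin y t F) ↔
      ∀ b, ∑ j, (∑ c, ((cv nm E (c, j) - cv nm F (c, j) : ℤ) : ℂ) * ξ c) *
        MvPolynomial.eval (fun i => 1 / (t i : ℂ)) (P b j) = 0 := by
    intro t ht E F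
    have hpos : ∀ i, 0 < t i := fun i => lt_of_le_of_lt (Nat.zero_le _) (ht i)
    have h1 : ∀ b, (∑ j, (∑ c, ((cv nm E (c, j) - cv nm F (c, j) : ℤ) : ℂ) * ξ c) *
        MvPolynomial.eval (fun i => 1 / (t i : ℂ)) (P b j) = 0) ↔
        ∀ i, ∑ α, (cv nm E α - cv nm F α) * MvPolynomial.eval (fun i => (t i : ℤ)) (W b i α) = 0 := by
      intro b
      rw [← hW b t hpos fun α => cv nm E α - cv nm F α]
      rw [Fintype.sum_prod_type_right]
      have h2 : ∀ j, (∑ c, ((cv nm E (c, j) - cv nm F (c, j) : ℤ) : ℂ) * ξ c) *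
          MvPolynomial.eval (fun i => 1 / (t i : ℂ)) (P b j) =
          ∑ c, ((cv nm E (c, j) - cv nm F (c, j) : ℤ) : ℂ) *
            MvPolynomial.eval (fun i => 1 / (t i : ℂ)) (MvPolynomial.C (ξ c) * P b j) := by
        intro j
        rw [Finset.sum_mul]
        refine Finset.sum_congr rfl fun c _ => ?_
        rw [map_mul, MvPolynomial.eval_C, mul_assoc]
      rw [Finset.sum_congr rfl fun j _ => h2 j]
    constructor
    · intro h2 b
      rw [h1]
      intro i
      have h3 := h2 ⟨b, i⟩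
      rw [hlin, hlin] at h3
      simp only [sub_mul]
      rw [Finset.sum_sub_distrib]
      exact sub_eq_zero.2 h3
    · intro h2 y
      rw [hlin, hlin]
      have h3 := (h1 y.1).1 (h2 y.1) y.2
      simp only [sub_mul] at h3
      rw [Finset.sum_sub_distrib] at h3
      exact sub_eq_zero.1 h3
  have hval : ∀ (t : Fin k → ℕ) (E F : List (ℤ × Fin g × List κ)), (∀ x ∈ E, x.2.2.length ≤ d) →
      (∀ x ∈ F, x.2.2.length ≤ d) → (val nm ξ (f fun i => (t i : ℝ)) E = val nm ξ (f fun i => (t i : ℝ)) F ↔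
        ∑ j : Jx (Σ i, Fin (n i)) d, (∑ c, ((cv nm E (c, j) - cv nm F (c, j) : ℤ) : ℂ) * ξ c) *
          mon (f fun i => (t i : ℝ)) j = 0) := by
    intro t E F hE hF'
    rw [val_eq (d := d) nm ξ _ hE, val_eq (d := d) nm ξ _ hF', ← sub_eq_zero, ← Finset.sum_sub_distrib, Fintype.sum_prod_type_right]
    have h2 : ∀ j : Jx (Σ i, Fin (n i)) d,
        (∑ c, ((cv nm E (c, j) - cv nm F (c, j) : ℤ) : ℂ) * ξ c) * mon (f fun i => (t i : ℝ)) j =
        ∑ c, ((cv nm E (c, j) : ℂ) * (ξ c * mon (f fun i => (t i : ℝ)) j) -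
          (cv nm F (c, j) : ℂ) * (ξ c * mon (f fun i => (t i : ℝ)) j)) := by
      intro j
      rw [Finset.sum_mul]
      refine Finset.sum_congr rfl fun c _ => ?_
      push_cast
      ring
    rw [Finset.sum_congr rfl fun j _ => h2 j]
  refine ⟨C + (T₀ + 1) + G.totalDegree, Q, ?_, ?_, ?_⟩
  · -- primitive recursive
    refine PrimrecPred.and (PrimrecPred.and ?_ (PrimrecPred.not ?_)) ?_
    · refine prim_all fun i => ?_
      refine Primrec.nat_lt.comp (Primrec.const T₀) ?_
      exact Primrec.fin_app.comp Primrec.fst (Primrec.const i)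
    · refine prim_all fun i => ?_
      exact Primrec.eq.comp ((prim_eval (W' i ())).comp Primrec.fst) (Primrec.const 0)
    · refine prim_all fun y => ?_
      have hfin : ({x : Fin g × List κ | x.2.length ≤ d}).Finite := by
        have h1 := (Set.finite_univ (α := Fin g)).prod (List.finite_length_le κ d)
        refine h1.subset fun x hx => ⟨Set.mem_univ _, hx⟩
      have hzero : ∀ x : Fin g × List κ, x ∉ {x : Fin g × List κ | x.2.length ≤ d} → ω y x = 0 := by
        intro x hx
        refine Finset.sum_eq_zero fun j _ => ?_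
        rw [if_neg]
        intro h1
        apply hx
        show x.2.length ≤ d
        rw [← expo_sum nm, h1]
        exact ex_sum j
      have h1 := prim_sum (ω y) _ hfin hzero
      have h2 : Primrec fun z : (Fin k → ℕ) × List (ℤ × Fin g × List κ) × List (ℤ × Fin g × List κ) => (z.1, z.2.1) :=
        Primrec.pair Primrec.fst (Primrec.fst.comp Primrec.snd)
      have h3 : Primrec fun z : (Fin k → ℕ) × List (ℤ × Fin g × List κ) × List (ℤ × Fin g × List κ) => (z.1, z.2.2) :=
        Primrec.pair Primrec.fst (Primrec.snd.comp Primrec.snd)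
      have e4 := h1.comp h2
      have e5 := h1.comp h3
      exact Primrec.eq.comp e4 e5
  · -- soundness
    rintro t E F hE hF' ⟨⟨ht, hG0⟩, hl⟩
    refine (hval t E F hE hF').2 ?_
    refine hsound (fun i => (t i : ℝ)) (hT₀ t ht) ?_ _ ?_
    · intro h1
      apply hG0
      have h2 := (hW' t (fun i => lt_of_le_of_lt (Nat.zero_le _) (ht i)) fun _ => 1).1 (by
        simpa using h1)
      intro i
      simpa using h2 i
    · have h1 := (hkey t ht E F).1 hl
      intro b
      have h2 := h1 b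
      simpa using h2
  · -- completeness
    intro x N hN S hS
    set S₁ := S.filter fun t => ∃ i, t i ≤ T₀ with hS₁
    set S₂ := S.filter fun t => MvPolynomial.eval (fun i => 1 / (t i : ℂ)) G = 0 with hS₂
    set S₃ := S.filter fun t => (¬ ∃ i, t i ≤ T₀) ∧ MvPolynomial.eval (fun i => 1 / (t i : ℂ)) G ≠ 0 with hS₃
    have hcov : S ⊆ S₁ ∪ (S₂ ∪ S₃) := by
      intro t ht
      by_cases h1 : ∃ i, t i ≤ T₀
      · exact Finset.mem_union_left _ (Finset.mem_filter.2 ⟨ht, h1⟩)
      · by_cases h2 : MvPolynomial.eval (fun i => 1 / (t i : ℂ)) G = 0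
        · exact Finset.mem_union_right _ (Finset.mem_union_left _ (Finset.mem_filter.2 ⟨ht, h2⟩))
        · exact Finset.mem_union_right _ (Finset.mem_union_right _ (Finset.mem_filter.2 ⟨ht, h1, h2⟩))
    have hcard : S.card ≤ S₁.card + (S₂.card + S₃.card) :=
      (Finset.card_le_card hcov).trans ((Finset.card_union_le _ _).trans (Nat.add_le_add_left (Finset.card_union_le _ _) _))
    have hb₁ : S₁.card ≤ k * (T₀ + 1) * N ^ (k - 1) := small T₀ N x S₁ fun t ht =>
      ⟨(hS t (Finset.mem_filter.1 ht).1).1, (Finset.mem_filter.1 ht).2⟩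
    have hb₂ : S₂.card ≤ k * G.totalDegree * N ^ (k - 1) := zeros_box hG le_rfl x N hN S₂ fun t ht =>
      ⟨(hS t (Finset.mem_filter.1 ht).1).1, (Finset.mem_filter.1 ht).2⟩
    let V : Submodule ℚ ℂ := Submodule.span ℚ (Set.range ξ)
    have hVfin : Module.Finite ℚ V := Module.Finite.span_of_finite ℚ (Set.finite_range ξ)
    have hVr : Module.finrank ℚ V ≤ g := by
      have h1 := finrank_range_le_card (R := ℚ) ξ
      rw [Fintype.card_fin] at h1
      exact h1
    have hb₃ : (S₃.card : ℝ) ≤ C * (N : ℝ) ^ (k - 1) * ∑ i, (1 + N / ((x i : ℝ) + N) ^ c) := by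
      refine hrel q hq V hVr x N hN S₃ fun t ht => ?_
      obtain ⟨htS, hbig, hGt⟩ := Finset.mem_filter.1 ht
      obtain ⟨hbox, E, F, hE, hF', heq, hQ⟩ := hS t htS
      push Not at hbig
      let a : Jx (Σ i, Fin (n i)) d → ℂ := fun j => ∑ c, ((cv nm E (c, j) - cv nm F (c, j) : ℤ) : ℂ) * ξ c
      let Fp : MvPolynomial (Σ i, Fin (n i)) ℂ := ∑ j, MvPolynomial.monomial (ex j) (a j)
      have hcoeff : ∀ j, Fp.coeff (ex j) = a j := by
        intro j
        rw [MvPolynomial.coeff_sum, Finset.sum_eq_single j]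
        · rw [MvPolynomial.coeff_monomial, if_pos rfl]
        · intro j' _ hne
          rw [MvPolynomial.coeff_monomial, if_neg]
          intro h1
          exact hne (ex_inj h1)
        · intro h1
          exact absurd (Finset.mem_univ _) h1
      have haV : ∀ j, a j ∈ V := fun j => V.sum_mem fun c _ => by
        have h1 : ((cv nm E (c, j) - cv nm F (c, j) : ℤ) : ℂ) * ξ c = ((cv nm E (c, j) - cv nm F (c, j) : ℤ) : ℚ) • ξ c := by
          rw [Rat.smul_def]
          push_cast
          rfl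
        rw [h1]
        exact V.smul_mem _ (Submodule.subset_span ⟨c, rfl⟩)
      have hdeg : Fp.totalDegree ≤ d := by
        refine (MvPolynomial.totalDegree_finsetSum _ _).trans (Finset.sup_le fun j _ => ?_)
        refine (MvPolynomial.totalDegree_monomial_le _ _).trans ?_
        exact ex_sum j
      refine ⟨hbox, Fp, hdeg, fun s => ?_, ?_, ?_⟩
      · by_cases hs : (s.sum fun _ e => e) ≤ d
        · obtain ⟨j, rfl⟩ := ex_surj hs
          rw [hcoeff]
          exact haV j
        · have h0 : Fp.coeff s = 0 := by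
            by_contra h1
            exact hs ((MvPolynomial.le_totalDegree (MvPolynomial.mem_support_iff.2 h1)).trans hdeg)
          rw [h0]
          exact V.zero_mem
      · rw [map_sum]
        have h1 := (hval t E F hE hF').1 heq
        refine Eq.trans (Finset.sum_congr rfl fun j _ => ?_) h1
        rw [MvPolynomial.eval_monomial, Finsupp.prod_fintype _ _ (fun _ => pow_zero _)]
        rfl
      · rintro ⟨R, hRd, ⟨τ', hR0⟩, hRF⟩
        apply hQ
        refine ⟨⟨hbig, fun h1 => hGt ?_⟩, (hkey t hbig E F).2 fun b => ?_⟩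
        · have h2 := (hW' t (fun i => lt_of_le_of_lt (Nat.zero_le _) (hbig i)) fun _ => 1).2 (by
            intro i
            simpa using h1 i)
          simpa using h2
        · have hmem : (fun j => R.coeff (ex j)) ∈ Rel d f := by
            refine ⟨τ', fun s hs => ?_⟩
            have h1 := hR0 s hs
            rw [eq_sum_ex hRd, MvPolynomial.eval₂_sum] at h1
            refine Eq.trans (Finset.sum_congr rfl fun j _ => ?_) h1
            rw [MvPolynomial.eval₂_monomial, Finsupp.prod_fintype _ _ (fun _ => pow_zero _)]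
            rfl
          have h1 := congrArg (MvPolynomial.eval fun i => 1 / (t i : ℂ)) (hcomp _ hmem b)
          rw [map_sum, map_zero] at h1
          refine Eq.trans (Finset.sum_congr rfl fun j _ => ?_) h1
          rw [map_mul]
          congr 1
          have h2 : a j = MvPolynomial.eval (fun i => 1 / (t i : ℂ)) (R.coeff (ex j)) := by
            rw [← hcoeff j, ← hRF, MvPolynomial.coeff_map]
          exact h2
    have hN1 : (1 : ℝ) ≤ N := by exact_mod_cast hN
    have hk : (k : ℝ) ≤ ∑ i, (1 + (N : ℝ) / ((x i : ℝ) + N) ^ c) := by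
      have h1 : ∑ _i : Fin k, (1 : ℝ) ≤ ∑ i, (1 + (N : ℝ) / ((x i : ℝ) + N) ^ c) := by
        refine Finset.sum_le_sum fun i _ => ?_
        have : 0 ≤ (N : ℝ) / ((x i : ℝ) + N) ^ c := by positivity
        linarith
      rw [Finset.sum_const, Finset.card_univ, Fintype.card_fin, nsmul_eq_mul, mul_one] at h1
      exact h1
    have h1 : (S.card : ℝ) ≤ k * (T₀ + 1) * (N : ℝ) ^ (k - 1) + (k * G.totalDegree * (N : ℝ) ^ (k - 1) +
        C * (N : ℝ) ^ (k - 1) * ∑ i, (1 + N / ((x i : ℝ) + N) ^ c)) := by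
      have e1 : (S.card : ℝ) ≤ S₁.card + (S₂.card + S₃.card) := by exact_mod_cast hcard
      have e2 : (S₁.card : ℝ) ≤ k * (T₀ + 1) * (N : ℝ) ^ (k - 1) := by exact_mod_cast hb₁
      have e3 : (S₂.card : ℝ) ≤ k * G.totalDegree * (N : ℝ) ^ (k - 1) := by exact_mod_cast hb₂
      linarith
    refine h1.trans ?_
    have hpow : (0 : ℝ) ≤ (N : ℝ) ^ (k - 1) := by positivity
    have e4 : (k : ℝ) * (T₀ + 1) * (N : ℝ) ^ (k - 1) ≤ (T₀ + 1) * (N : ℝ) ^ (k - 1) * ∑ i, (1 + (N : ℝ) / ((x i : ℝ) + N) ^ c) := by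
      have : (k : ℝ) * (T₀ + 1) * (N : ℝ) ^ (k - 1) = (T₀ + 1) * (N : ℝ) ^ (k - 1) * k := by ring
      rw [this]
      exact mul_le_mul_of_nonneg_left hk (by positivity)
    have e5 : (k : ℝ) * G.totalDegree * (N : ℝ) ^ (k - 1) ≤
        G.totalDegree * (N : ℝ) ^ (k - 1) * ∑ i, (1 + (N : ℝ) / ((x i : ℝ) + N) ^ c) := by
      have : (k : ℝ) * G.totalDegree * (N : ℝ) ^ (k - 1) = G.totalDegree * (N : ℝ) ^ (k - 1) * k := by ring
      rw [this]
      exact mul_le_mul_of_nonneg_left hk (by positivity)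
    calc k * (T₀ + 1) * (N : ℝ) ^ (k - 1) + (k * G.totalDegree * (N : ℝ) ^ (k - 1) +
        C * (N : ℝ) ^ (k - 1) * ∑ i, (1 + (N : ℝ) / ((x i : ℝ) + N) ^ c))
        ≤ (T₀ + 1) * (N : ℝ) ^ (k - 1) * ∑ i, (1 + (N : ℝ) / ((x i : ℝ) + N) ^ c) +
          (G.totalDegree * (N : ℝ) ^ (k - 1) * ∑ i, (1 + (N : ℝ) / ((x i : ℝ) + N) ^ c) +
          C * (N : ℝ) ^ (k - 1) * ∑ i, (1 + (N : ℝ) / ((x i : ℝ) + N) ^ c)) := by linarith
      _ = _ := by ring

end

end Q207.EP
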